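import Mathlib
set_option autoImplicit false

/-!
# Project RA: residual amenability of amalgams over virtually cyclic virtual retracts

Definitions.
-/

namespace Q32.RA

universe u v

/-- A bounded real function. -/
def Bd {G : Type u} (f : G → ℝ) : Prop := ∃ C : ℝ, ∀ x, |f x| ≤ C

/-- A (discrete) group is amenable if there is a left-invariant mean on its bounded real
functions. -/
def Amen (G : Type u) [Group G] : Prop :=
  ∃ M : (G → ℝ) → ℝ, (∀ f g, Bd f → Bd g → M (fun x => f x + g x) = M f + M g) ∧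
    (∀ (c : ℝ) (f : G → ℝ), Bd f → M (fun x => c * f x) = c * M f) ∧
    (∀ f, Bd f → (∀ x, 0 ≤ f x) → 0 ≤ M f) ∧ M (fun _ => 1) = 1 ∧
    ∀ (a : G) (f : G → ℝ), Bd f → M (fun x => f (a * x)) = M f

/-- A group is residually amenable if every nontrivial element has nontrivial image under some
homomorphism to an amenable group. -/
def ResAmen (G : Type u) [Group G] : Prop :=
  ∀ g : G, g ≠ 1 → ∃ (A : Type u) (_ : Group A) (φ : G →* A), Amen A ∧ φ g ≠ 1

/-- A group is virtually cyclic if it has a cyclic subgroup of finite index. -/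
def VirtCyclic (G : Type u) [Group G] : Prop := ∃ C : Subgroup G, C.FiniteIndex ∧ IsCyclic C

/-- `H` is a virtual retract of `G`: there are a subgroup `K` of finite index containing `H` and a
homomorphism from `K` to `H` whose restriction to `H` is the identity. -/
def IsVirtRetract {G : Type u} [Group G] (H : Subgroup G) : Prop :=
  ∃ K : Subgroup G, K.FiniteIndex ∧ ∃ h : H ≤ K, ∃ ρ : K →* H, ∀ x : H, ρ (Subgroup.inclusion h x) = x

/-- The group of all permutations of `Z × D` that commute with the right multiplications by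
elements of `D` (the unrestricted wreath product of `D` and the permutations of `Z`). -/
def EP (Z : Type u) (D : Type v) [Group D] : Subgroup (Equiv.Perm (Z × D)) where
  carrier := {σ | ∀ z d e, σ (z, d * e) = ((σ (z, d)).1, (σ (z, d)).2 * e)}
  mul_mem' := by
    intro a b ha hb z d e
    show a (b (z, d * e)) = ((a (b (z, d))).1, (a (b (z, d))).2 * e)
    rw [hb z d e, ha]
  one_mem' := fun z d e => rfl
  inv_mem' := by
    intro a ha z d e
    show a⁻¹ (z, d * e) = ((a⁻¹ (z, d)).1, (a⁻¹ (z, d)).2 * e)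
    rw [Equiv.Perm.inv_eq_iff_eq, ha]
    have h : a ((a⁻¹ (z, d)).1, (a⁻¹ (z, d)).2) = (z, d) := Equiv.apply_symm_apply a (z, d)
    rw [h]

/-- The elements of `EP Z D` that move only finitely many lines `{z} × D`. -/
def FEP (Z : Type u) (D : Type v) [Group D] : Subgroup (Equiv.Perm (Z × D)) where
  carrier := {σ | σ ∈ EP Z D ∧ {z | ∃ d, σ (z, d) ≠ (z, d)}.Finite}
  mul_mem' := by
    rintro a b ⟨ha, ha'⟩ ⟨hb, hb'⟩
    refine ⟨(EP Z D).mul_mem ha hb, (ha'.union hb').subset ?_⟩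
    rintro z ⟨d, hd⟩
    by_contra hz
    simp only [Set.mem_union, Set.mem_ofPred_eq, not_or, not_exists, not_not] at hz
    exact hd (by show a (b (z, d)) = (z, d); rw [hz.2 d, hz.1 d])
  one_mem' := by
    refine ⟨(EP Z D).one_mem, Set.finite_empty.subset ?_⟩
    rintro z ⟨d, hd⟩
    exact hd rfl
  inv_mem' := by
    rintro a ⟨ha, ha'⟩
    refine ⟨(EP Z D).inv_mem ha, ha'.subset ?_⟩
    rintro z ⟨d, hd⟩
    refine ⟨d, fun h => hd ?_⟩
    rw [Equiv.Perm.inv_eq_iff_eq, h]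

/-- `G` is the amalgamated free product of `G₁` and `G₂` over `H` (universal property). -/
structure IsAm {H G₁ G₂ G : Type u} [Group H] [Group G₁] [Group G₂] [Group G] (i₁ : H →* G₁)
    (i₂ : H →* G₂) (j₁ : G₁ →* G) (j₂ : G₂ →* G) : Prop where
  comm : ∀ h, j₁ (i₁ h) = j₂ (i₂ h)
  gen : ∀ S : Subgroup G, (∀ g, j₁ g ∈ S) → (∀ g, j₂ g ∈ S) → S = ⊤
  lift : ∀ (B : Type u) [Group B] (f₁ : G₁ →* B) (f₂ : G₂ →* B), (∀ h, f₁ (i₁ h) = f₂ (i₂ h)) →
    ∃ f : G →* B, (∀ g, f (j₁ g) = f₁ g) ∧ ∀ g, f (j₂ g) = f₂ g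

theorem IsAm.symm {H G₁ G₂ G : Type u} [Group H] [Group G₁] [Group G₂] [Group G] {i₁ : H →* G₁}
    {i₂ : H →* G₂} {j₁ : G₁ →* G} {j₂ : G₂ →* G} (h : IsAm i₁ i₂ j₁ j₂) : IsAm i₂ i₁ j₂ j₁ where
  comm := fun x => (h.comm x).symm
  gen := fun S a b => h.gen S b a
  lift := fun B _ f₁ f₂ hf => by
    obtain ⟨f, h1, h2⟩ := h.lift B f₂ f₁ (fun x => (hf x).symm)
    exact ⟨f, h2, h1⟩

/-- the element `g` can be separated from the image of `ι` in an amenable quotient -/
def Sep {H G : Type u} [Group H] [Group G] (ι : H →* G) (g : G) : Prop :=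
  ∃ (B : Type u) (_ : Group B) (Φ : G →* B), Amen B ∧ ∀ h, Φ g ≠ Φ (ι h)

section ray

variable {F : Type u} {D : Type v}

open Classical in
/-- the relabelling: `none` goes to `(x₀, 0)`, the point `(x₀, n)` to `(x₀, n + 1)`, all other
points `(x, n)` stay -/
noncomputable def th (x₀ : F) : Option (F × ℕ) → F × ℕ
  | none => (x₀, 0)
  | some (x, n) => if x = x₀ then (x₀, n + 1) else (x, n)

open Classical in
/-- the multiplicative delta function at `x₀` with value the generator of `ℤ` -/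
noncomputable def dl (x₀ x : F) : Multiplicative ℤ := if x = x₀ then Multiplicative.ofAdd 1 else 1

/-- `Option (F × ℕ)` as a part of `F × ℤ`: `none` is the point `(x₀, -1)` -/
def JJ (x₀ : F) : Option (F × ℕ) × D → F × (Multiplicative ℤ × D)
  | (none, d) => (x₀, (Multiplicative.ofAdd (-1), d))
  | (some (x, n), d) => (x, (Multiplicative.ofAdd (n : ℤ), d))

end ray

/-- The ray actions: `Φ` is the action on `Option (F × ℕ)`, `Λ` the action on `F × ℤ`. -/
structure IsRay {G₁ G₂ G F D : Type u} [Group G₁] [Group G₂] [Group G] [Group D]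
    (j₁ : G₁ →* G) (j₂ : G₂ →* G) (x₀ : F) (Ψ : G →* EP F D) (α : G₁ →* D)
    (Φ : G →* EP (Option (F × ℕ)) D) (Λ : G →* EP F (Multiplicative ℤ × D)) : Prop where
  a : ∀ g d, (Φ (j₁ g)).1 (none, d) = (none, α g * d)
  b : ∀ g x n d, (Φ (j₁ g)).1 (some (x, n), d) =
    (some (((Ψ (j₁ g)).1 (x, d)).1, n), ((Ψ (j₁ g)).1 (x, d)).2)
  c : ∀ g z d, (th x₀ ((Φ (j₂ g)).1 (z, d)).1, ((Φ (j₂ g)).1 (z, d)).2) =
    ((((Ψ (j₂ g)).1 ((th x₀ z).1, d)).1, (th x₀ z).2), ((Ψ (j₂ g)).1 ((th x₀ z).1, d)).2)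
  d : ∀ g x n d, (Λ (j₁ g)).1 (x, (n, d)) =
    (((Ψ (j₁ g)).1 (x, d)).1, (n, ((Ψ (j₁ g)).1 (x, d)).2))
  e : ∀ g x n d, (Λ (j₂ g)).1 (x, (n, d)) =
    (((Ψ (j₂ g)).1 (x, d)).1,
      (n * dl x₀ x * (dl x₀ ((Ψ (j₂ g)).1 (x, d)).1)⁻¹, ((Ψ (j₂ g)).1 (x, d)).2))

/-- products of initial segments -/
def pr {G : Type u} [Group G] (x : ℕ → G) : ℕ → G
  | 0 => 1
  | n + 1 => pr x n * x n

section words

variable {H G₁ G₂ G : Type u} [Group H] [Group G₁] [Group G₂] [Group G]

/-- the element of `G` given by a letter -/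
def vl (j₁ : G₁ →* G) (j₂ : G₂ →* G) : G₁ ⊕ G₂ → G
  | Sum.inl g => j₁ g
  | Sum.inr g => j₂ g

/-- a letter is proper if it does not come from `H` -/
def Proper (i₁ : H →* G₁) (i₂ : H →* G₂) : G₁ ⊕ G₂ → Prop
  | Sum.inl g => g ∉ i₁.range
  | Sum.inr g => g ∉ i₂.range

/-- the first `L` letters of `y` form a reduced word -/
def Red (i₁ : H →* G₁) (i₂ : H →* G₂) (y : ℕ → G₁ ⊕ G₂) (L : ℕ) : Prop :=
  (∀ k, k + 1 < L → (y k).isLeft ≠ (y (k + 1)).isLeft) ∧ ∀ k, k < L → Proper i₁ i₂ (y k)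

end words

end Q32.RA

namespace Q32.RA

universe w'

open Classical in
/-- the delta function with integer values -/
noncomputable def dd {X : Type w'} (x₀ x : X) : ℤ := if x = x₀ then 1 else 0

/-- The data of the Magnus type step: `Φ' : G → B'` refines `Φ : G → B` by the cocycle `s` with
values in the integer functions on `B ⧸ R`, where `R` is the image of `H` in `B`. -/
structure IsMag {H G₁ G₂ G B B' : Type w'} [Group H] [Group G₁] [Group G₂] [Group G] [Group B]
    [Group B'] (i₁ : H →* G₁) (j₁ : G₁ →* G) (j₂ : G₂ →* G) (Φ : G →* B) (Φ' : G →* B')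
    (s : G → (B ⧸ (Φ.comp (j₁.comp i₁)).range) → ℤ) : Prop where
  a : ∀ g z, s (j₁ g) z = 0
  b : ∀ g z, s (j₂ g) z = dd ((1 : B) : B ⧸ (Φ.comp (j₁.comp i₁)).range) z -
    dd ((1 : B) : B ⧸ (Φ.comp (j₁.comp i₁)).range) (Φ (j₂ g) • z)
  c : ∀ g g' z, s (g * g') z = s g (Φ g' • z) + s g' z
  d : ∀ g g', Φ' g = Φ' g' → Φ g = Φ g' ∧ s g = s g'

/-- the closure properties of the class of amenable groups used below -/
structure AmLib : Prop where
  inj : ∀ (G H : Type w') [Group G] [Group H] (f : G →* H), Function.Injective f → Amen H → Amen G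
  ext : ∀ (G H : Type w') [Group G] [Group H] (f : G →* H), Amen f.ker → Amen H → Amen G
  fin : ∀ (G : Type w') [Group G] [Finite G], Amen G
  com : ∀ (G : Type w') [CommGroup G], Amen G
  prod : ∀ (G H : Type w') [Group G] [Group H], Amen G → Amen H → Amen (G × H)
  prodInt : ∀ (D : Type w') [Group D], Amen D → Amen (Multiplicative ℤ × D)
  ep : ∀ (F D : Type w') [Group D] [Finite F], Amen D → Amen (EP F D)
  fep : ∀ (Z D : Type w') [Group D], Amen D → Amen (FEP Z D)
  vc : ∀ (H : Type w') [Group H], VirtCyclic H → Amen H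

end Q32.RA
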