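import Mathlib
import Pool.Agent.Q32.RA.Def
import Pool.Agent.Q31.VA.E
set_option autoImplicit false

/-!
# Project RA: statements of the lemma jobs

Goal (full answer of MP_71554c_al, positive): if `G = G₁ *_H G₂`, `H` is virtually cyclic and a
virtual retract of both factors and `G₁, G₂` are residually amenable, then `G` is residually
amenable.

Proof in short. (1) `H` is a virtual retract of `G` (VRG, from the theorem of `Q31VA`).
(2) RAY: if `H` is a virtual retract of `G`, every homomorphism `α : G₁ → D` to an amenable group is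
dominated on `G₁` by a homomorphism of `G` to an amenable group. (3) SEP: letters of `G₁` outside
`H` can be separated from `H` in amenable quotients of `G`. (4) MAG: reduced words can be separated
from `H`, by induction on the length, with a Magnus type extension.
-/

namespace Q32.RA

universe u v

/-! ### A. closure properties of amenable groups -/

/-- INJ. A group that embeds in an amenable group is amenable.
Proof. Let `M` be a mean on `H`, `f : G → H` injective. `G` acts freely on `H` by `g • h = f g * h`;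
choose a set of representatives of the orbits (right cosets of `f.range`); so there is a map
`p : H → G` with `p (f g * h) = g * p h` (write `h = f (p h) * r` with `r` the representative).
Put `M' φ = M (φ ∘ p)`. Additivity, homogeneity, positivity, `M' 1 = 1` are clear; invariance:
`M' (φ (a * ·)) = M (h ↦ φ (a * p h)) = M (h ↦ φ (p (f a * h))) = M (φ ∘ p)`. -/
def S_INJ : Prop := ∀ (G : Type u) (H : Type v) [Group G] [Group H] (f : G →* H),
  Function.Injective f → Amen H → Amen G

/-- SUR. Quotients of amenable groups are amenable: `M' φ = M (φ ∘ f)`. -/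
def S_SUR : Prop := ∀ (G : Type u) (H : Type v) [Group G] [Group H] (f : G →* H),
  Function.Surjective f → Amen G → Amen H

/-- EXT. Extensions. Proof. `f : G → H` onto, `M_N` a mean on `N = ker f`, `M_H` a mean on `H`,
`s : H → G` a section of `f` (a map). For bounded `φ` put
`M φ = M_H (h ↦ M_N (n ↦ φ (s h * n)))` (the inner function is bounded by the bound of `φ`, as
`|M_N ψ| ≤ C` if `|ψ| ≤ C`). The inner value does not depend on the choice of the lift `s h` of `h`:
another lift is `s h * n₀` and `M_N (n ↦ φ (s h * n₀ * n)) = M_N (n ↦ φ (s h * n))` by invariance.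
So for `a : G`: `M_N (n ↦ φ (a * s h * n)) = M_N (n ↦ φ (s (f a * h) * n))` since `a * s h` is a
lift of `f a * h`, and the invariance of `M_H` gives `M (φ (a * ·)) = M φ`. -/
def S_EXT : Prop := ∀ (G : Type u) (H : Type v) [Group G] [Group H] (f : G →* H),
  Function.Surjective f → Amen f.ker → Amen H → Amen G

/-- DIR. Locally amenable groups are amenable. Proof. For every finite `S` choose `K S ∋ S` and a
mean `M_S` on it; let `φ ↦ M_S (φ restricted to K S)`. Let `𝒰` be an ultrafilter on `Finset G`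
finer than `atTop`. For bounded `φ` put `M φ = lim_𝒰 M_S (φ|K S)` (the values lie in `[-C, C]`,
compact). Linearity, positivity and `M 1 = 1` pass to the limit; invariance under `a`: for all
`S ∋ a`, `a ∈ K S`, so `M_S (φ (a * ·)|K S) = M_S (φ|K S)`, and `{S | a ∈ S}` is in `atTop`. -/
def S_DIR : Prop := ∀ (G : Type u) [Group G],
  (∀ S : Finset G, ∃ K : Subgroup G, (∀ x ∈ S, x ∈ K) ∧ Amen K) → Amen G

/-- INT. The group of integers is amenable. Proof: `M_n φ = (1/(n+1)) ∑_{k ≤ n} φ (ofAdd k)`,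
`M φ = lim` along a nonprincipal ultrafilter on `ℕ` (values in `[-C, C]`); invariance first for
`a = ofAdd m`: `|M_n (φ (a * ·)) - M_n φ| ≤ 2 |m| C / (n+1)`. -/
def S_INT : Prop := Amen (Multiplicative ℤ)

/-- FIN. Finite groups are amenable (average). -/
def S_FIN : Prop := ∀ (G : Type u) [Group G] [Finite G], Amen G

/-- COM. Commutative groups are amenable. Proof. By DIR it suffices to find for every finite `S` an
amenable subgroup containing `S`; take `K = closure S` and show it is amenable by induction on the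
finset `S`: `closure ∅` is trivial (FIN); `closure (insert a S)` is the image of
`closure S × Multiplicative ℤ` under `(k, n) ↦ k * a ^ n`, and `closure S × Multiplicative ℤ` is
amenable by EXT for the projection to `Multiplicative ℤ` (kernel embeds in `closure S`). -/
def S_COM : Prop := S_INJ.{u, u} → S_SUR.{u, u} → S_EXT.{u, 0} → S_DIR.{u} → S_INT → S_FIN.{u} →
  ∀ (G : Type u) [CommGroup G], Amen G

/-- PI. Finite powers. Induction on the finite type (`Finite.induction_empty_option`), with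
binary products: `G × H → H` has kernel embedded in `G`. -/
def S_PI : Prop :=
  (∀ (G H : Type u) [Group G] [Group H] (f : G →* H), Function.Injective f → Amen H → Amen G) →
  (∀ (G H : Type u) [Group G] [Group H] (f : G →* H), Amen f.ker → Amen H → Amen G) →
  S_FIN.{u} → ∀ (ι D : Type u) [Group D] [Finite ι], Amen D → Amen (ι → D)

/-- FEP. `EP F D` for finite `F` and `FEP Z D` for every `Z` are amenable if `D` is.
Proof. (1) `σ ∈ EP F D` maps `(x, d)` to `(p x, e x * d)` with `p x = (σ (x, 1)).1` and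
`e x = (σ (x, 1)).2`; `σ ↦ p` is a homomorphism to the finite group `Equiv.Perm F`
(bijectivity of `p`: the inverse comes from `σ⁻¹`), and its kernel embeds in `F → D` by `σ ↦ e`.
Use the closure under extensions. (2) By DIR: let `S` be a finite set of elements of `FEP Z D`, `T` the finite
union of their supports `{z | ∃ d, σ (z, d) ≠ (z, d)}` and `K` the subgroup of all `σ ∈ FEP Z D`
with `σ (z, d) = (z, d)` for all `z ∉ T`; every `σ ∈ K` maps `T × D` to itself, and the restriction
is an injective homomorphism `K → EP T D`. -/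
def S_FEP : Prop :=
  (∀ (G H : Type u) [Group G] [Group H] (f : G →* H), Function.Injective f → Amen H → Amen G) →
  (∀ (G H : Type u) [Group G] [Group H] (f : G →* H), Amen f.ker → Amen H → Amen G) →
  S_DIR.{u} → S_FIN.{u} → (∀ (ι D : Type u) [Group D] [Finite ι], Amen D → Amen (ι → D)) →
  (∀ (F D : Type u) [Group D] [Finite F], Amen D → Amen (EP F D)) ∧
    ∀ (Z D : Type u) [Group D], Amen D → Amen (FEP Z D)

/-- VC. Virtually cyclic groups are amenable: the normal core of the cyclic subgroup of finite index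
is commutative, the quotient by it is finite. -/
def S_VC : Prop :=
  (∀ (G H : Type u) [Group G] [Group H] (f : G →* H), Amen f.ker → Amen H → Amen G) →
  S_FIN.{u} → (∀ (G : Type u) [CommGroup G], Amen G) → ∀ (H : Type u) [Group H], VirtCyclic H → Amen H

/-! ### B. virtual retracts -/

/-- IND. Induction of a homomorphism from a subgroup. Proof. Choose a section `t : G ⧸ K → G`
with `t 1 = 1` (for the coset of `1`); for `g : G`, `x : G ⧸ K` put
`κ g x = τ ((t (g • x))⁻¹ * g * t x)` (the element lies in `K`), so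
`κ (g * g') x = κ g (g' • x) * κ g' x`, and `Ψ g (x, d) = (g • x, κ g x * d)`. -/
def S_IND : Prop := ∀ (G D : Type u) [Group G] [Group D] (K : Subgroup G) (τ : K →* D),
  ∃ Ψ : G →* EP (G ⧸ K) D, (∀ g x d, ((Ψ g).1 (x, d)).1 = g • x) ∧
    ∀ (k : K) (d : D), (Ψ (k : G)).1 (((1 : G) : G ⧸ K), d) = (((1 : G) : G ⧸ K), τ k * d)

/-- EPV. `EP F H` is finitely generated and virtually abelian if `F` is finite and `H` is virtually
cyclic. Proof. `H` is finitely generated (generators: a generator `c` of the cyclic subgroup `C` of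
finite index and coset representatives). The kernel `N` of `EP F H → Equiv.Perm F` is isomorphic
with `F → H` (finitely generated, finite product of finitely generated groups; or directly:
generated by the finitely many elements acting by a generator of `H` on one line), it has finite
index; a group with a finitely generated subgroup of finite index is finitely generated. The
elements of `N` acting on each line by an element of `C` form a commutative subgroup of finite
index. -/
def S_EPV : Prop := ∀ (F H : Type u) [Group H] [Finite F], VirtCyclic H →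
  Group.FG (EP F H) ∧ Q31VA.VirtuallyAbelian (EP F H)

/-- TFA. A finitely generated virtually abelian group has a normal commutative subgroup of finite
index whose nontrivial elements are detected by homomorphisms to the integers. Proof. Let `A` be the
normal core of an abelian subgroup of finite index; it is finitely generated (finite index in a
finitely generated group), so isomorphic to `ℤ ^ r × T` with `T` finite
(`CommGroup.equiv_free_prod_prod_multiplicative_zmod` or the additive version); let `e` be the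
exponent (or the order) of `T` and `N` the image of `x ↦ x ^ e` on `A`: characteristic in `A`, so
normal in `E`, and of finite index (`A / A ^ e` is a finitely generated torsion commutative group,
finite). If `w = x ^ e ∈ N` is killed by all `r` coordinate homomorphisms `A → ℤ`, then so is `x`,
so `x ∈ T` and `w = 1`. (Compare the file `Pool/Agent/Q31/VA/C.lean`.) -/
def S_TFA : Prop := ∀ (E : Type u) [Group E], Group.FG E → Q31VA.VirtuallyAbelian E →
  ∃ N : Subgroup E, N.Normal ∧ N.FiniteIndex ∧ (∀ x ∈ N, ∀ y ∈ N, x * y = y * x) ∧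
    ∀ w : N, w ≠ 1 → ∃ l : N →* Multiplicative ℤ, l w ≠ 1

/-- VFP. Let `N` be normal of finite index in `G`, `C ≤ G`, and `l : N → ℤ` a homomorphism that is
injective on `N ∩ C`. Then `C` is a virtual retract of `G`.
Proof. Write `l` additively. If `N ∩ C` is trivial put `H' = N`. Otherwise `D = N ∩ C` is infinite
cyclic (it embeds in `ℤ`), normal in `C` and of finite index in `C`; for `c ∈ C` conjugation by `c`
is an automorphism of `D ≅ ℤ`, so `c x c⁻¹ = x ^ ε(c)` for all `x ∈ D`, with `ε : C → {1, -1}` a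
homomorphism, `ε = 1` on `D` (`D` is commutative). Put
`L y = ∑_{c ∈ C / D} ε(c) l (c⁻¹ y c)` for `y ∈ N`; well defined: replacing `c` by `c n`, `n ∈ D`,
changes nothing since `l (n⁻¹ z n) = l z` for `z ∈ N` (`n ∈ N` and `ℤ` commutative) and
`ε(n) = 1`. `L : N → ℤ` is a homomorphism, `L (c y c⁻¹) = ε(c) L y` for `c ∈ C`, and
`L x = [C : D] l x` for `x ∈ D`. So `H' = ker L` is normalised by `C`, and `L` is injective on `D`;
`H' * D` has finite index in `N` because `L D` is a nonzero subgroup of `ℤ`.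
In both cases `H' ∩ C = 1` (`H' ≤ N`, so `H' ∩ C ≤ D`), `H'` is normalised by `C`, and
`K = H' C` (a subgroup) has finite index in `G`; the map `h c ↦ c` is a well defined homomorphism
`K → C` which is the identity on `C`. -/
def S_VFP : Prop := ∀ (G : Type u) [Group G] (C N : Subgroup G), N.Normal → N.FiniteIndex →
  ∀ l : N →* Multiplicative ℤ, (∀ x : N, (x : G) ∈ C → l x = 1 → x = 1) → IsVirtRetract C

/-- VR2. Virtually cyclic subgroups of finitely generated virtually abelian groups are virtual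
retracts. Proof. Take `N` from TFA. If `N ∩ C = 1` use VFP with `l = 1`. Otherwise choose
`w ∈ N ∩ C`, `w ≠ 1`, and `l` with `l w ≠ 1` and use VFP with this `l`: suppose `x ∈ N ∩ C`,
`l x = 1`, `x ≠ 1`. By TFA `x` has infinite order (some `l'` with `l' x ≠ 1`), and `w` has infinite
order. Some powers `x ^ m`, `w ^ m` with `m > 0` lie in the cyclic subgroup `⟨c⟩` of finite index
of `C` (index of the normal core), `x ^ m = c ^ p`, `w ^ m = c ^ q`, `p, q ≠ 0`, so
`x ^ (m q) = w ^ (m p)` and `1 = l (w ^ (m p)) ≠ 1`. -/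
def S_VR2 : Prop := S_TFA.{u} → S_VFP.{u} → ∀ (E : Type u) [Group E], Group.FG E →
  Q31VA.VirtuallyAbelian E → ∀ C : Subgroup E, VirtCyclic C → IsVirtRetract C

/-- VRG. If `H` is virtually cyclic and a virtual retract of both factors, it is a virtual retract of
the amalgam. Proof. For `i = 1, 2` let `K_i ≤ G_i` of finite index and `ρ_i : K_i → H` the
retraction (identify the range of the injective `i_i` with `H`). IND gives
`Ψ_i : G_i → EP (G_i ⧸ K_i) H` which is injective on the image of `H` (look at the base line: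
`Ψ_i (i_i h) (1, d) = (1, h * d)`), and the target `E_i` is finitely generated and virtually abelian
by EPV. Apply `Q31VA.final` to `E_1, E_2` and the injective homomorphisms `H → E_i`: it gives
`E` finitely generated virtually abelian and a homomorphism of the amalgam of the `E_i` to `E`
injective on both `E_i`; composing, and with the universal property of `G`, one gets
`η : G → E` with `η ∘ j₁ ∘ i₁` injective. By VR2 its range `C` is a virtual retract of `E`:
`K' ≤ E`, `ρ' : K' → C`. Put `K = η⁻¹ K'` and `ρ = (H ≅ C)⁻¹ ∘ ρ' ∘ η`. -/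
def S_VRG : Prop := S_IND.{u} → S_EPV.{u} →
  (∀ (E : Type u) [Group E], Group.FG E → Q31VA.VirtuallyAbelian E →
    ∀ C : Subgroup E, VirtCyclic C → IsVirtRetract C) →
  ∀ (H G₁ G₂ G : Type u) [Group H] [Group G₁] [Group G₂] [Group G] (i₁ : H →* G₁) (i₂ : H →* G₂)
    (j₁ : G₁ →* G) (j₂ : G₂ →* G), IsAm i₁ i₂ j₁ j₂ → VirtCyclic H → Function.Injective i₁ →
    Function.Injective i₂ → IsVirtRetract i₁.range → IsVirtRetract i₂.range →
    ∃ K : Subgroup G, K.FiniteIndex ∧ ∃ ρ : K →* H, ∀ h, ∃ hk : j₁ (i₁ h) ∈ K, ρ ⟨j₁ (i₁ h), hk⟩ = h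

/-! ### C. the ray -/

/-- RAY1. Existence of the ray actions (`IsRay` in `Def.lean`). Proof. `G` acts on
`Option (F × ℕ) × D`: `g ∈ G₁` by `(none, d) ↦ (none, α g * d)` and
`(some (x, n), d) ↦ (some (x', n), d')` with `(x', d') = Ψ (j₁ g) (x, d)`; `g ∈ G₂` by the conjugate
by the bijection `th x₀ × id` of the action `((x, n), d) ↦ ((x', n), d')`,
`(x', d') = Ψ (j₂ g) (x, d)`, on `(F × ℕ) × D` (`th x₀` is a bijection). Both are homomorphisms to
`EP (Option (F × ℕ)) D`, and they agree on `H`: by hypothesis and `j₁ (i₁ h) = j₂ (i₂ h)`,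
`Ψ (j₁ (i₁ h)) (x₀, d) = (x₀, α (i₁ h) * d)`; check the three cases `none`, `(x₀, n)`, `(x, n)` with
`x ≠ x₀` (then also the new point `x'` is `≠ x₀`, since `Ψ` is a permutation compatible with right
multiplication which maps the line of `x₀` onto itself). Now use `IsAm.lift`.
Similarly for `Λ`: `G₁` acts on `F × (ℤ × D)` by `(x, (n, d)) ↦ (x', (n, d'))` and `G₂` by the
conjugate under `(x, (n, d)) ↦ (x, (n * dl x₀ x, d))`. -/
def S_RAY1 : Prop := ∀ (H G₁ G₂ G F D : Type u) [Group H] [Group G₁] [Group G₂] [Group G] [Group D]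
  (i₁ : H →* G₁) (i₂ : H →* G₂) (j₁ : G₁ →* G) (j₂ : G₂ →* G), IsAm i₁ i₂ j₁ j₂ →
  ∀ (x₀ : F) (Ψ : G →* EP F D) (α : G₁ →* D),
    (∀ h d, (Ψ (j₁ (i₁ h))).1 (x₀, d) = (x₀, α (i₁ h) * d)) →
    ∃ (Φ : G →* EP (Option (F × ℕ)) D) (Λ : G →* EP F (Multiplicative ℤ × D)),
      IsRay j₁ j₂ x₀ Ψ α Φ Λ

/-- RAY2. Every `g` acts by `Φ` on all but finitely many lines of `Option (F × ℕ) × D` as by `Λ`.
Proof. Let `bad g = {z | ∃ d, JJ x₀ (Φ g (z, d)) ≠ Λ g (JJ x₀ (z, d))}`. The set of `g` with
`bad g` finite is a subgroup: `bad (g g') ⊆ bad g' ∪ {z | z' ∈ bad g}` with `z' = (Φ g' (z, 1)).1`,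
and `z ↦ z'` is a bijection as `Φ g' ∈ EP`; `bad g⁻¹` is the image of `bad g` under
`z ↦ (Φ g (z, 1)).1`. It contains `j₁ g`: by (b), (d) `bad (j₁ g) ⊆ {none}`. It contains `j₂ g`:
by (c), (e) `bad (j₂ g) = ∅`, because `JJ x₀ (z, d) = (y, (ofAdd m * (dl x₀ y)⁻¹, d))` for
`(y, m) = th x₀ z` (three cases), so with `(y', d') = Ψ (j₂ g) (y, d)`,
`Λ (j₂ g) (JJ (z, d)) = (y', (ofAdd m * (dl x₀ y')⁻¹, d'))`, and
`Φ (j₂ g) (z, d) = (z', d')` with `th x₀ z' = (y', m)`. Use `IsAm.gen`. -/
def S_RAY2 : Prop := ∀ (H G₁ G₂ G F D : Type u) [Group H] [Group G₁] [Group G₂] [Group G] [Group D]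
  (i₁ : H →* G₁) (i₂ : H →* G₂) (j₁ : G₁ →* G) (j₂ : G₂ →* G), IsAm i₁ i₂ j₁ j₂ →
  ∀ (x₀ : F) (Ψ : G →* EP F D) (α : G₁ →* D) (Φ : G →* EP (Option (F × ℕ)) D)
    (Λ : G →* EP F (Multiplicative ℤ × D)), IsRay j₁ j₂ x₀ Ψ α Φ Λ →
    ∀ g : G, {z : Option (F × ℕ) | ∃ d, JJ x₀ ((Φ g).1 (z, d)) ≠ (Λ g).1 (JJ x₀ (z, d))}.Finite

/-- RAY. If `H` is a virtual retract of `G`, every homomorphism from `G₁` to an amenable group is
dominated by a homomorphism from `G` to an amenable group.
Proof. `τ = α ∘ i₁ ∘ ρ : K → D`, `F = G ⧸ K` (finite), `x₀` the coset of `1`, `Ψ` from IND, so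
`Ψ (j₁ (i₁ h)) (x₀, d) = (x₀, α (i₁ h) * d)`. Take `Φ, Λ` from RAY1 and `B = (Φ.prod Λ).range`.
The second projection `B → EP F (Multiplicative ℤ × D)` has amenable target (`ep`, `prodInt`), and
its kernel embeds by the first projection in `FEP (Option (F × ℕ)) D`: if `Λ g = 1`, then by RAY2
and the injectivity of `JJ x₀` the set `{z | ∃ d, Φ g (z, d) ≠ (z, d)}` is finite. So `B` is
amenable. If `g ∈ G₁` and `(Φ (j₁ g), Λ (j₁ g)) = 1`, then `(none, α g * 1) = (none, 1)`. -/
def S_RAY : Prop := AmLib.{u} → S_IND.{u} → S_RAY1.{u} → S_RAY2.{u} →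
  ∀ (H G₁ G₂ G D : Type u) [Group H] [Group G₁] [Group G₂] [Group G] [Group D] (i₁ : H →* G₁)
    (i₂ : H →* G₂) (j₁ : G₁ →* G) (j₂ : G₂ →* G), IsAm i₁ i₂ j₁ j₂ →
  ∀ (K : Subgroup G) (ρ : K →* H), K.FiniteIndex →
    (∀ h, ∃ hk : j₁ (i₁ h) ∈ K, ρ ⟨j₁ (i₁ h), hk⟩ = h) → ∀ α : G₁ →* D, Amen D →
    ∃ (B : Type u) (_ : Group B) (Φ : G →* B), Amen B ∧ ∀ g, Φ (j₁ g) = 1 → α g = 1

/-- SEP. Letters outside `H` can be separated from `H`. Proof. Let `g ∈ G₁` not in the range of
`i₁`. If `j₁ g ∉ K`: `B = Equiv.Perm (G ⧸ K)` (finite), `Φ` the action; `j₁ g` moves the coset of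
`1` and `j₁ (i₁ h) ∈ K` fixes it. If `j₁ g ∈ K`, let `h₀ = ρ (j₁ g)` and
`y = g * (i₁ h₀)⁻¹ ≠ 1`. As `G₁` is residually amenable there are an amenable `D` and
`α : G₁ → D` with `α y ≠ 1`; let `Φ : G → B` be as in the hypothesis (the conclusion of RAY), so
`Φ (j₁ y) ≠ 1`. Let `Ψ : G → EP (G ⧸ K) H` be given by IND for `ρ`; `EP (G ⧸ K) H` is amenable
(`vc`, `ep`). Use `B × EP (G ⧸ K) H` and `(Φ, Ψ)`: if `j₁ g` and `j₁ (i₁ h)` have equal images, then
the line of `1` shows `ρ (j₁ g) = h`, so `h = h₀` and `Φ (j₁ g) = Φ (j₁ (i₁ h₀))`, i.e.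
`Φ (j₁ y) = 1`, a contradiction. -/
def S_SEP : Prop := AmLib.{u} → S_IND.{u} →
  ∀ (H G₁ G : Type u) [Group H] [Group G₁] [Group G] (i₁ : H →* G₁) (j₁ : G₁ →* G)
    (K : Subgroup G) (ρ : K →* H), K.FiniteIndex →
    (∀ h, ∃ hk : j₁ (i₁ h) ∈ K, ρ ⟨j₁ (i₁ h), hk⟩ = h) → VirtCyclic H → ResAmen G₁ →
    (∀ (D : Type u) [Group D] (α : G₁ →* D), Amen D →
      ∃ (B : Type u) (_ : Group B) (Φ : G →* B), Amen B ∧ ∀ g, Φ (j₁ g) = 1 → α g = 1) →
    ∀ g, g ∉ i₁.range → Sep (j₁.comp i₁) (j₁ g)

/-! ### D. the Magnus step -/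

/-- MAG1. Existence of the Magnus extension. Proof. Let `R` be the image of `H` in `B`,
`X = B ⧸ R`, `z₀` the coset of `1`, `δ = dl z₀ : X → ℤ`. `G₁` acts on `X × Multiplicative ℤ` by
`(z, n) ↦ (Φ (j₁ g) • z, n)` and `G₂` by
`(z, n) ↦ (Φ (j₂ g) • z, n * δ z * (δ (Φ (j₂ g) • z))⁻¹)`; the actions agree on `H` because
`Φ (j₁ (i₁ h))` fixes `z₀`, so `δ (Φ (j₁ (i₁ h)) • z) = δ z`. `IsAm.lift` gives
`Ξ : G → EP X (Multiplicative ℤ)` (here `EP.{u, 0}`, a group in `Type u`) with
`(Ξ g (z, n)).1 = Φ g • z` for all `g` (use `IsAm.gen`); put `s g z = toAdd (Ξ g (z, 1)).2`,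
`B' = (Φ.prod Ξ).range`, `Φ' = (Φ.prod Ξ).rangeRestrict`. `B'` is amenable by `ext` for the first
projection to `B`: its kernel consists of pairs `(1, Ξ g)` with `Φ g = 1`, which move the points
only along the lines and so commute with each other; the kernel is a commutative group (`com`). -/
def S_MAG1 : Prop := AmLib.{u} → ∀ (H G₁ G₂ G B : Type u) [Group H] [Group G₁] [Group G₂] [Group G]
  [Group B] (i₁ : H →* G₁) (i₂ : H →* G₂) (j₁ : G₁ →* G) (j₂ : G₂ →* G), IsAm i₁ i₂ j₁ j₂ →
  ∀ Φ : G →* B, Amen B → ∃ (B' : Type u) (_ : Group B') (Φ' : G →* B')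
    (s : G → (B ⧸ (Φ.comp (j₁.comp i₁)).range) → ℤ), Amen B' ∧ IsMag i₁ j₁ j₂ Φ Φ' s

/-- MAG2. The combinatorial step. Let `p k = pr x k` with `x k = vl j₁ j₂ (y k)` the prefix
products of an alternating word of length `L ≥ 2` such that all proper subwords are mapped by `Φ`
outside the image of `H`. Then `Φ'` maps the whole word outside the image of `H`.
Proof. Write `x_k = x (k - 1)` for `1 ≤ k ≤ L`, `e_k` for the coset `Φ (p k) • z₀ ∈ B ⧸ R`
(`z₀` the coset of `1`). Suppose `Φ' (p L) = Φ' (ι h)`. Then `Φ (p L) = Φ (ι h)` and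
`s (p L) = s (ι h) = 0` (as `ι h = j₁ (i₁ h)`, field `a`). By the cocycle rule (field `c`),
`s (p L) z = ∑_{k = 1}^{L} s (x_k) (Φ (p_k⁻¹ p_L) • z)`, and for a letter `x_k` of `G₂` the term is
`dd z₀ (Φ (p_k⁻¹ p_L) • z) - dd z₀ (Φ (p_{k-1}⁻¹ p_L) • z)`, i.e. `[z' = e_k] - [z' = e_{k-1}]` with
`z' = Φ (p_L) • z`; letters of `G₁` give `0`. So with `J = {k ∈ [1, L] : x_k is a letter of G₂}`:
`∑_{k ∈ J} ([z' = e_k] - [z' = e_{k-1}]) = 0` for all `z'`. By hypothesis `e_i ≠ e_j` for
`0 < |i - j| < L` (`e_i = e_j` iff `Φ (p_i⁻¹ p_j) ∈ R`). `J` contains no two consecutive numbers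
(alternation) and is not empty (`L ≥ 2`). Take `k ∈ J`. If `k < L`, evaluate at `z' = e_k`: the
positive terms `k' ∈ J` with `e_{k'} = e_k` are only `k' = k` (`k' ≥ 1` and `1 ≤ k < L`, so
`|k - k'| < L`); a negative term `k' ∈ J` would have `e_{k' - 1} = e_k`, so `k' - 1 = k`
(as `|k' - 1 - k| < L`), impossible by alternation. The sum is `1 ≠ 0`. If `k = L`, evaluate at
`z' = e_{L - 1}`: negative terms `k'` with `e_{k' - 1} = e_{L - 1}`: only `k' = L`; positive terms
`e_{k'} = e_{L - 1}`, `k' ≥ 1`: `k' = L - 1 ∉ J`. The sum is `-1 ≠ 0`. -/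
def S_MAG2 : Prop := ∀ (H G₁ G₂ G B B' : Type u) [Group H] [Group G₁] [Group G₂] [Group G] [Group B]
  [Group B'] (i₁ : H →* G₁) (j₁ : G₁ →* G) (j₂ : G₂ →* G) (Φ : G →* B) (Φ' : G →* B')
  (s : G → (B ⧸ (Φ.comp (j₁.comp i₁)).range) → ℤ), IsMag i₁ j₁ j₂ Φ Φ' s →
  ∀ (y : ℕ → G₁ ⊕ G₂) (L : ℕ), 2 ≤ L →
    (∀ k, k + 1 < L → (y k).isLeft ≠ (y (k + 1)).isLeft) →
    (∀ i j, i < j → j ≤ L → j - i < L → ∀ h,
      Φ ((pr (fun k => vl j₁ j₂ (y k)) i)⁻¹ * pr (fun k => vl j₁ j₂ (y k)) j) ≠ Φ (j₁ (i₁ h))) →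
    ∀ h, Φ' (pr (fun k => vl j₁ j₂ (y k)) L) ≠ Φ' (j₁ (i₁ h))

/-- COMB. Finitely many separable elements can be separated at the same time (products of amenable
groups; induction on the finset). -/
def S_COMB : Prop := AmLib.{u} → ∀ (H G : Type u) [Group H] [Group G] (ι : H →* G) (S : Finset G),
  (∀ g ∈ S, Sep ι g) → ∃ (B : Type u) (_ : Group B) (Φ : G →* B), Amen B ∧
    ∀ g ∈ S, ∀ h, Φ g ≠ Φ (ι h)

/-- MAG. Reduced words of length at least 1 are separable from `H`. Proof. Strong induction on `L`,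
for all `y`. `L = 1`: the hypotheses. `L ≥ 2`: for `i < j ≤ L`, `j - i < L` the element
`(p i)⁻¹ * p j` is the product of the reduced word `k ↦ y (i + k)` of length `j - i`, separable by
induction. COMB gives one `Φ : G → B`, amenable, for all these pairs; MAG1 and MAG2 finish. -/
def S_MAG : Prop := AmLib.{u} → S_MAG1.{u} → S_MAG2.{u} → S_COMB.{u} →
  ∀ (H G₁ G₂ G : Type u) [Group H] [Group G₁] [Group G₂] [Group G] (i₁ : H →* G₁) (i₂ : H →* G₂)
    (j₁ : G₁ →* G) (j₂ : G₂ →* G), IsAm i₁ i₂ j₁ j₂ →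
    (∀ g, g ∉ i₁.range → Sep (j₁.comp i₁) (j₁ g)) → (∀ g, g ∉ i₂.range → Sep (j₁.comp i₁) (j₂ g)) →
    ∀ (L : ℕ) (y : ℕ → G₁ ⊕ G₂), 1 ≤ L → Red i₁ i₂ y L →
      Sep (j₁.comp i₁) (pr (fun k => vl j₁ j₂ (y k)) L)

/-- WORD. Every element of `G` is in the image of `H` or the product of a reduced word.
Proof. Let `T` be the set of these elements; it contains `1`. It is closed under left multiplication
by `j₁ a`: for `ι h` it is the letter `a * i₁ h` (proper, or the product is in the image of `H`);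
for a word `y` starting with a letter of `G₂`: if `a = i₁ h` replace the first letter `b` by
`i₂ h * b`, otherwise put `a` in front; for a word starting with `b ∈ G₁`: if `a * b` is proper
replace `b` by `a * b`; if `a * b = i₁ h`, drop the first letter and multiply the next one (in `G₂`)
by `i₂ h`, or get `ι h` if `L = 1`. The same for `j₂ b`. The elements `s` of `G` with `s * g ∈ T` and
`s⁻¹ * g ∈ T` for all `g ∈ T` form a subgroup containing all `j₁ a`, `j₂ b`; use `IsAm.gen`. -/
def S_WORD : Prop := ∀ (H G₁ G₂ G : Type u) [Group H] [Group G₁] [Group G₂] [Group G]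
  (i₁ : H →* G₁) (i₂ : H →* G₂) (j₁ : G₁ →* G) (j₂ : G₂ →* G), IsAm i₁ i₂ j₁ j₂ → ∀ g : G,
  (∃ h, g = j₁ (i₁ h)) ∨ ∃ (y : ℕ → G₁ ⊕ G₂) (L : ℕ), 1 ≤ L ∧ Red i₁ i₂ y L ∧
    g = pr (fun k => vl j₁ j₂ (y k)) L

/-- PO. Mathlib's `Monoid.PushoutI` over `Fin 2` is an amalgam in the sense of `IsAm`. -/
def S_PO : Prop := ∀ (G : Fin 2 → Type u) (H : Type u) [∀ i, Group (G i)] [Group H]
  (φ : ∀ i, H →* G i), IsAm (φ 0) (φ 1) (Monoid.PushoutI.of (φ := φ) 0)
    (Monoid.PushoutI.of (φ := φ) 1)

end Q32.RA
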