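import Mathlib
import Pool.Agent.Q32.RA.Stm
set_option autoImplicit false

/-! # Project RA: assembly from the statements -/

namespace Q32.RA

universe u v

theorem ext_general (inj : S_INJ.{v, v}) (ext : S_EXT.{u, v}) (G : Type u) (H : Type v) [Group G]
    [Group H] (f : G →* H) (h1 : Amen f.ker) (h2 : Amen H) : Amen G := by
  have h3 : Amen f.range := inj _ _ f.range.subtype Subtype.val_injective h2
  refine ext G f.range f.rangeRestrict f.rangeRestrict_surjective ?_ h3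
  rw [MonoidHom.ker_rangeRestrict]
  exact h1

theorem amLib (inj : S_INJ.{u, u}) (inj0 : S_INJ.{u, 0}) (sur : S_SUR.{u, u}) (ext : S_EXT.{u, u})
    (ext0 : S_EXT.{u, 0}) (dir : S_DIR.{u}) (int : S_INT) (fin : S_FIN.{u}) (com : S_COM.{u})
    (pi : S_PI.{u}) (fep : S_FEP.{u}) (vc : S_VC.{u}) : AmLib.{u} := by
  have e : ∀ (G H : Type u) [Group G] [Group H] (f : G →* H), Amen f.ker → Amen H → Amen G :=
    fun G H _ _ f h1 h2 => ext_general inj ext G H f h1 h2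
  have i : ∀ (G H : Type u) [Group G] [Group H] (f : G →* H), Function.Injective f → Amen H →
      Amen G := fun G H _ _ f h1 h2 => inj G H f h1 h2
  have c := com inj sur ext0 dir int fin
  have p := pi i e fin
  have q := fep i e dir fin p
  refine ⟨i, e, fin, c, ?_, ?_, q.1, q.2, vc e fin c⟩
  · intro G H _ _ hG hH
    refine e (G × H) H (MonoidHom.snd G H) ?_ hH
    refine i _ G ((MonoidHom.fst G H).comp (MonoidHom.snd G H).ker.subtype) ?_ hG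
    rintro ⟨⟨a, b⟩, h⟩ ⟨⟨a', b'⟩, h'⟩ hh
    have h1 : b = 1 := h
    have h2 : b' = 1 := h'
    have h3 : a = a' := hh
    subst h1 h2 h3
    rfl
  · intro D _ hD
    refine e (Multiplicative ℤ × D) D (MonoidHom.snd _ D) ?_ hD
    refine inj0 _ (Multiplicative ℤ)
      ((MonoidHom.fst _ D).comp (MonoidHom.snd (Multiplicative ℤ) D).ker.subtype) ?_ int
    rintro ⟨⟨a, b⟩, h⟩ ⟨⟨a', b'⟩, h'⟩ hh
    have h1 : b = 1 := h
    have h2 : b' = 1 := h'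
    have h3 : a = a' := hh
    subst h1 h2 h3
    rfl

theorem res (lib : AmLib.{u}) (ind : S_IND.{u}) (epv : S_EPV.{u}) (tfa : S_TFA.{u})
    (vfp : S_VFP.{u}) (vr2 : S_VR2.{u}) (vrg : S_VRG.{u}) (ray1 : S_RAY1.{u}) (ray2 : S_RAY2.{u})
    (ray : S_RAY.{u}) (sep : S_SEP.{u}) (mag1 : S_MAG1.{u}) (mag2 : S_MAG2.{u})
    (comb : S_COMB.{u}) (mag : S_MAG.{u}) (word : S_WORD.{u})
    (H G₁ G₂ G : Type u) [Group H] [Group G₁] [Group G₂] [Group G] (i₁ : H →* G₁) (i₂ : H →* G₂)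
    (j₁ : G₁ →* G) (j₂ : G₂ →* G) (hA : IsAm i₁ i₂ j₁ j₂) (hvc : VirtCyclic H)
    (h₁ : Function.Injective i₁) (h₂ : Function.Injective i₂) (r₁ : IsVirtRetract i₁.range)
    (r₂ : IsVirtRetract i₂.range) (a₁ : ResAmen G₁) (a₂ : ResAmen G₂) : ResAmen G := by
  obtain ⟨K, hK, ρ, hρ⟩ := vrg ind epv (vr2 tfa vfp) H G₁ G₂ G i₁ i₂ j₁ j₂ hA hvc h₁ h₂ r₁ r₂
  have hρ' : ∀ h, ∃ hk : j₂ (i₂ h) ∈ K, ρ ⟨j₂ (i₂ h), hk⟩ = h := by
    intro h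
    obtain ⟨hk, hh⟩ := hρ h
    have hk' : j₂ (i₂ h) ∈ K := hA.comm h ▸ hk
    have he : (⟨j₂ (i₂ h), hk'⟩ : K) = ⟨j₁ (i₁ h), hk⟩ := Subtype.ext (hA.comm h).symm
    exact ⟨hk', by rw [he, hh]⟩
  have s1 : ∀ g, g ∉ i₁.range → Sep (j₁.comp i₁) (j₁ g) :=
    sep lib ind H G₁ G i₁ j₁ K ρ hK hρ hvc a₁
      (fun D _ α hD => ray lib ind ray1 ray2 H G₁ G₂ G D i₁ i₂ j₁ j₂ hA K ρ hK hρ α hD)
  have s2' : ∀ g, g ∉ i₂.range → Sep (j₂.comp i₂) (j₂ g) :=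
    sep lib ind H G₂ G i₂ j₂ K ρ hK hρ' hvc a₂
      (fun D _ α hD => ray lib ind ray1 ray2 H G₂ G₁ G D i₂ i₁ j₂ j₁ hA.symm K ρ hK hρ' α hD)
  have hc : j₂.comp i₂ = j₁.comp i₁ := MonoidHom.ext fun h => (hA.comm h).symm
  have s2 : ∀ g, g ∉ i₂.range → Sep (j₁.comp i₁) (j₂ g) := fun g hg => hc ▸ s2' g hg
  intro g hg
  rcases word H G₁ G₂ G i₁ i₂ j₁ j₂ hA g with ⟨h, rfl⟩ | ⟨y, L, hL, hy, rfl⟩
  · obtain ⟨Ψ, -, hΨ⟩ := ind G H K ρ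
    have : Finite (G ⧸ K) := inferInstance
    refine ⟨EP (G ⧸ K) H, inferInstance, Ψ, lib.ep _ _ (lib.vc H hvc), fun h1 => hg ?_⟩
    obtain ⟨hk, hh⟩ := hρ h
    have h2 := hΨ ⟨_, hk⟩ 1
    rw [h1] at h2
    have h3 : (1 : H) = ρ ⟨_, hk⟩ * 1 := congrArg Prod.snd h2
    rw [hh, mul_one] at h3
    rw [← h3, map_one, map_one]
  · obtain ⟨B, hB, Φ, hB1, hB2⟩ := mag lib mag1 mag2 comb H G₁ G₂ G i₁ i₂ j₁ j₂ hA s1 s2 L y hL hy
    refine ⟨B, hB, Φ, hB1, fun h1 => hB2 1 ?_⟩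
    rw [h1, map_one, map_one]

end Q32.RA
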