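import Mathlib
import Pool.Agent.Q32.RA.Stm
set_option autoImplicit false

namespace Q32.RA

universe u v

theorem fin : S_FIN.{u} := by
  intro G _ _
  classical
  have := Fintype.ofFinite G
  have hpos : (0 : ℝ) < Fintype.card G := by exact_mod_cast Fintype.card_pos
  refine ⟨fun f => (∑ x, f x) / Fintype.card G, ?_, ?_, ?_, ?_, ?_⟩
  · intro f g _ _
    simp only [Finset.sum_add_distrib, add_div]
  · intro c f _
    simp only [← Finset.mul_sum, mul_div_assoc]
  · intro f _ hf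
    exact div_nonneg (Finset.sum_nonneg fun x _ => hf x) hpos.le
  · simp
  · intro a f _
    simp only
    congr 1
    exact Fintype.sum_equiv (Equiv.mulLeft a) _ _ (fun x => rfl)

theorem sur : S_SUR.{u, v} := by
  rintro G H _ _ f hf ⟨M, h1, h2, h3, h4, h5⟩
  have hb : ∀ φ : H → ℝ, Bd φ → Bd (fun x => φ (f x)) := by
    rintro φ ⟨C, hC⟩
    exact ⟨C, fun x => hC _⟩
  refine ⟨fun φ => M (fun x => φ (f x)), ?_, ?_, ?_, h4, ?_⟩
  · intro φ ψ hφ hψ
    exact h1 _ _ (hb φ hφ) (hb ψ hψ)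
  · intro c φ hφ
    exact h2 c _ (hb φ hφ)
  · intro φ hφ h
    exact h3 _ (hb φ hφ) (fun x => h _)
  · intro a φ hφ
    obtain ⟨b, rfl⟩ := hf a
    have := h5 b _ (hb φ hφ)
    simp only [map_mul] at this
    exact this

theorem ind : S_IND.{u} := by
  intro G D _ _ K τ
  classical
  have hsec : ∃ t : G ⧸ K → G, (∀ x, ((t x : G) : G ⧸ K) = x) ∧ t ((1 : G) : G ⧸ K) = 1 := by
    refine ⟨fun x => if x = ((1 : G) : G ⧸ K) then 1 else x.out, ?_, ?_⟩
    · intro x
      by_cases h : x = ((1 : G) : G ⧸ K)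
      · subst h; simp
      · simp only [if_neg h]
        exact QuotientGroup.out_eq' x
    · simp
  obtain ⟨t, ht, ht1⟩ := hsec
  have hmem : ∀ (g : G) (x : G ⧸ K), (t (g • x))⁻¹ * g * t x ∈ K := by
    intro g x
    rw [mul_assoc, ← QuotientGroup.eq, ht]
    conv_lhs => rw [← ht x]
    rfl
  let κ : G → G ⧸ K → D := fun g x => τ ⟨_, hmem g x⟩
  have hκ : ∀ g g' x, κ (g * g') x = κ g (g' • x) * κ g' x := by
    intro g g' x
    show τ _ = τ _ * τ _
    rw [← map_mul]
    congr 1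
    apply Subtype.ext
    show (t ((g * g') • x))⁻¹ * (g * g') * t x =
      ((t (g • g' • x))⁻¹ * g * t (g' • x)) * ((t (g' • x))⁻¹ * g' * t x)
    rw [mul_smul]
    group
  have hκ1 : ∀ x, κ 1 x = 1 := by
    intro x
    have h := hκ 1 1 x
    rw [one_smul, mul_one] at h
    exact (mul_eq_right.1 h.symm)
  let P : G → Equiv.Perm ((G ⧸ K) × D) := fun g =>
    { toFun := fun z => (g • z.1, κ g z.1 * z.2)
      invFun := fun z => (g⁻¹ • z.1, κ g⁻¹ z.1 * z.2)
      left_inv := by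
        rintro ⟨x, d⟩
        simp only [inv_smul_smul, Prod.mk.injEq, true_and]
        have h := hκ g⁻¹ g x
        rw [inv_mul_cancel, hκ1] at h
        rw [← mul_assoc, ← h, one_mul]
      right_inv := by
        rintro ⟨x, d⟩
        simp only [smul_inv_smul, Prod.mk.injEq, true_and]
        have h := hκ g g⁻¹ x
        rw [mul_inv_cancel, hκ1] at h
        rw [← mul_assoc, ← h, one_mul] }
  have hP : ∀ g, P g ∈ EP (G ⧸ K) D := by
    intro g z d e
    show (g • z, κ g z * (d * e)) = (g • z, κ g z * d * e)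
    rw [mul_assoc]
  refine ⟨{ toFun := fun g => ⟨P g, hP g⟩, map_one' := ?_, map_mul' := ?_ }, ?_, ?_⟩
  · apply Subtype.ext
    apply Equiv.ext
    rintro ⟨x, d⟩
    show ((1 : G) • x, κ 1 x * d) = (x, d)
    rw [one_smul, hκ1, one_mul]
  · intro g g'
    apply Subtype.ext
    apply Equiv.ext
    rintro ⟨x, d⟩
    show ((g * g') • x, κ (g * g') x * d) = (g • g' • x, κ g (g' • x) * (κ g' x * d))
    rw [mul_smul, hκ, mul_assoc]
  · intro g x d
    rfl
  · intro k d
    show ((k : G) • ((1 : G) : G ⧸ K), κ (k : G) _ * d) = _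
    have h1 : (k : G) • ((1 : G) : G ⧸ K) = ((1 : G) : G ⧸ K) := by
      show (((k : G) * 1 : G) : G ⧸ K) = _
      rw [mul_one, QuotientGroup.eq]
      simp
    have h2 : κ (k : G) ((1 : G) : G ⧸ K) = τ k := by
      show τ _ = τ _
      congr 1
      apply Subtype.ext
      show (t ((k : G) • ((1 : G) : G ⧸ K)))⁻¹ * (k : G) * t ((1 : G) : G ⧸ K) = k
      rw [h1, ht1]
      simp
    rw [h1, h2]

end Q32.RA
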