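import Mathlib
import Pool.Agent.Q32.RA.Stm
set_option autoImplicit false

namespace Q32.RA

universe u v

theorem ep_fst {Z : Type u} {D : Type v} [Group D] (σ : EP Z D) (z : Z) (d : D) :
    (σ.1 (z, d)).1 = (σ.1 (z, 1)).1 := by
  have h := σ.2 z 1 d
  rw [one_mul] at h
  rw [h]

theorem ep_snd {Z : Type u} {D : Type v} [Group D] (σ : EP Z D) (z : Z) (d : D) :
    (σ.1 (z, d)).2 = (σ.1 (z, 1)).2 * d := by
  have h := σ.2 z 1 d
  rw [one_mul] at h
  rw [h]

/-- the permutation of the lines -/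
def lineMap {Z : Type u} {D : Type v} [Group D] (σ : EP Z D) (z : Z) : Z := (σ.1 (z, 1)).1

theorem lineMap_mul {Z : Type u} {D : Type v} [Group D] (σ τ : EP Z D) (z : Z) :
    lineMap (σ * τ) z = lineMap σ (lineMap τ z) := by
  show (σ.1 (τ.1 (z, 1))).1 = (σ.1 ((τ.1 (z, 1)).1, 1)).1
  have : τ.1 (z, 1) = ((τ.1 (z, 1)).1, (τ.1 (z, 1)).2) := rfl
  rw [this, ep_fst]

theorem lineMap_injective {Z : Type u} {D : Type v} [Group D] (σ : EP Z D) :
    Function.Injective (lineMap σ) := by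
  have h : ∀ z, lineMap σ⁻¹ (lineMap σ z) = z := by
    intro z
    rw [← lineMap_mul, inv_mul_cancel]
    rfl
  exact Function.LeftInverse.injective h

theorem JJ_th {F D : Type u} [Group D] (x₀ : F) (z : Option (F × ℕ)) (d : D) :
    JJ x₀ (z, d) =
      ((th x₀ z).1, (Multiplicative.ofAdd ((th x₀ z).2 : ℤ) * (dl x₀ (th x₀ z).1)⁻¹, d)) := by
  rcases z with _ | ⟨x, n⟩
  · simp [JJ, th, dl]
  · by_cases h : x = x₀
    · subst h
      simp [JJ, th, dl]
    · simp [JJ, th, dl, h]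

theorem ray2 : S_RAY2.{u} := by
  intro H G₁ G₂ G F D _ _ _ _ _ i₁ i₂ j₁ j₂ hA x₀ Ψ α Φ Λ hR
  let bad : G → Set (Option (F × ℕ)) := fun g =>
    {z | ∃ d, JJ x₀ ((Φ g).1 (z, d)) ≠ (Λ g).1 (JJ x₀ (z, d))}
  let S : Subgroup G :=
    { carrier := {g | (bad g).Finite}
      mul_mem' := by
        intro g g' hg hg'
        have hfin : (bad g' ∪ (lineMap (Φ g')) ⁻¹' (bad g)).Finite :=
          hg'.union (Set.Finite.preimage (lineMap_injective _).injOn hg)
        refine hfin.subset ?_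
        rintro z ⟨d, hd⟩
        by_contra hz
        simp only [Set.mem_union, Set.mem_preimage, not_or] at hz
        obtain ⟨hz1, hz2⟩ := hz
        apply hd
        have h1 : ∀ d, JJ x₀ ((Φ g').1 (z, d)) = (Λ g').1 (JJ x₀ (z, d)) := by
          intro d
          by_contra h
          exact hz1 ⟨d, h⟩
        have h2 : ∀ d, JJ x₀ ((Φ g).1 (lineMap (Φ g') z, d)) =
            (Λ g).1 (JJ x₀ (lineMap (Φ g') z, d)) := by
          intro d
          by_contra h
          exact hz2 ⟨d, h⟩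
        rw [map_mul, map_mul]
        show JJ x₀ ((Φ g).1 ((Φ g').1 (z, d))) = (Λ g).1 ((Λ g').1 (JJ x₀ (z, d)))
        rw [← h1 d]
        have h3 : (Φ g').1 (z, d) = (lineMap (Φ g') z, ((Φ g').1 (z, d)).2) :=
          Prod.ext (ep_fst (Φ g') z d) rfl
        rw [h3, h2]
      one_mem' := by
        show (bad 1).Finite
        refine Set.finite_empty.subset ?_
        rintro z ⟨d, hd⟩
        apply hd
        rw [map_one, map_one]
        rfl
      inv_mem' := by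
        intro g hg
        show (bad g⁻¹).Finite
        have hfin : ((lineMap (Φ g)) '' (bad g)).Finite := Set.Finite.image _ hg
        refine hfin.subset ?_
        rintro z ⟨d, hd⟩
        obtain ⟨z', d', hz'⟩ : ∃ z' d', (Φ g⁻¹).1 (z, d) = (z', d') := ⟨_, _, rfl⟩
        have h1 : (Φ g).1 (z', d') = (z, d) := by
          rw [← hz', map_inv]
          exact Equiv.apply_symm_apply (Φ g).1 (z, d)
        refine ⟨z', ⟨d', fun h => hd ?_⟩, ?_⟩
        · rw [hz', map_inv]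
          show _ = (Λ g).1⁻¹ _
          rw [← h1, h]
          exact (Equiv.symm_apply_apply (Λ g).1 _).symm
        · show ((Φ g).1 (z', 1)).1 = z
          rw [← ep_fst (Φ g) z' d', h1] }
  have hS : S = ⊤ := by
    apply hA.gen
    · intro g
      show (bad (j₁ g)).Finite
      refine (Set.finite_singleton (none : Option (F × ℕ))).subset ?_
      rintro z ⟨d, hd⟩
      rcases z with _ | ⟨x, n⟩
      · rfl
      · exfalso
        apply hd
        rw [hR.b]
        show (((Ψ (j₁ g)).1 (x, d)).1, (Multiplicative.ofAdd (n : ℤ), ((Ψ (j₁ g)).1 (x, d)).2)) =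
          (Λ (j₁ g)).1 (x, (Multiplicative.ofAdd (n : ℤ), d))
        rw [hR.d]
    · intro g
      show (bad (j₂ g)).Finite
      refine Set.finite_empty.subset ?_
      rintro z ⟨d, hd⟩
      apply hd
      obtain ⟨z', d', hz'⟩ : ∃ z' d', (Φ (j₂ g)).1 (z, d) = (z', d') := ⟨_, _, rfl⟩
      have h1 := hR.c g z d
      rw [hz'] at h1 ⊢
      rw [JJ_th, JJ_th, hR.e]
      have h2 : th x₀ z' = (((Ψ (j₂ g)).1 ((th x₀ z).1, d)).1, (th x₀ z).2) :=
        congrArg Prod.fst h1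
      have h3 : d' = ((Ψ (j₂ g)).1 ((th x₀ z).1, d)).2 := congrArg Prod.snd h1
      rw [h2, h3]
      simp
  intro g
  have hg : g ∈ S := by rw [hS]; trivial
  exact hg

theorem JJ_injective {F D : Type u} [Group D] (x₀ : F) : Function.Injective (JJ (D := D) x₀) := by
  rintro ⟨_ | ⟨x, n⟩, d⟩ ⟨_ | ⟨x', n'⟩, d'⟩ h
  · have h2 : d = d' := congrArg (fun z => z.2.2) h
    rw [h2]
  · exfalso
    have h2 : Multiplicative.ofAdd (-1 : ℤ) = Multiplicative.ofAdd (n' : ℤ) :=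
      congrArg (fun z => z.2.1) h
    have h3 : (-1 : ℤ) = (n' : ℤ) := Multiplicative.ofAdd.injective h2
    omega
  · exfalso
    have h2 : Multiplicative.ofAdd (n : ℤ) = Multiplicative.ofAdd (-1 : ℤ) :=
      congrArg (fun z => z.2.1) h
    have h3 : (n : ℤ) = (-1 : ℤ) := Multiplicative.ofAdd.injective h2
    omega
  · have h1 : x = x' := congrArg (fun z => z.1) h
    have h2 : Multiplicative.ofAdd (n : ℤ) = Multiplicative.ofAdd (n' : ℤ) :=
      congrArg (fun z => z.2.1) h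
    have h3 : (n : ℤ) = (n' : ℤ) := Multiplicative.ofAdd.injective h2
    have h4 : d = d' := congrArg (fun z => z.2.2) h
    have h5 : n = n' := by exact_mod_cast h3
    rw [h1, h4, h5]

theorem ray : S_RAY.{u} := by
  intro lib ind ray1 ray2 H G₁ G₂ G D _ _ _ _ _ i₁ i₂ j₁ j₂ hA K ρ hK hρ α hD
  obtain ⟨Ψ, -, hΨ⟩ := ind G D K ((α.comp i₁).comp ρ)
  have : Finite (G ⧸ K) := inferInstance
  have hx : ∀ h d, (Ψ (j₁ (i₁ h))).1 (((1 : G) : G ⧸ K), d) =
      (((1 : G) : G ⧸ K), α (i₁ h) * d) := by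
    intro h d
    obtain ⟨hk, hh⟩ := hρ h
    have h1 := hΨ ⟨j₁ (i₁ h), hk⟩ d
    rw [h1]
    show _ = _
    simp only [MonoidHom.comp_apply, hh]
  obtain ⟨Φ, Λ, hR⟩ := ray1 H G₁ G₂ G (G ⧸ K) D i₁ i₂ j₁ j₂ hA _ Ψ α hx
  have hfin := ray2 H G₁ G₂ G (G ⧸ K) D i₁ i₂ j₁ j₂ hA _ Ψ α Φ Λ hR
  refine ⟨(Φ.prod Λ).range, inferInstance, (Φ.prod Λ).rangeRestrict, ?_, ?_⟩
  · -- amenability
    refine lib.ext _ (EP (G ⧸ K) (Multiplicative ℤ × D))
      ((MonoidHom.snd _ _).comp (Φ.prod Λ).range.subtype) ?_ (lib.ep _ _ (lib.prodInt D hD))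
    have hmem : ∀ b : ((MonoidHom.snd _ _).comp (Φ.prod Λ).range.subtype).ker,
        (b.1.1.1.1 : Equiv.Perm (Option ((G ⧸ K) × ℕ) × D)) ∈ FEP (Option ((G ⧸ K) × ℕ)) D := by
      rintro ⟨⟨⟨a, c⟩, ⟨g, hg⟩⟩, hb⟩
      have hb' : c = 1 := hb
      have hg1 : Φ g = a := congrArg Prod.fst hg
      have hg2 : Λ g = c := congrArg Prod.snd hg
      refine ⟨a.2, (hfin g).subset ?_⟩
      rintro z ⟨d, hd⟩
      refine ⟨d, fun h => hd ?_⟩
      rw [hg2, hb'] at h
      have h5 : (Φ g).1 (z, d) = (z, d) := JJ_injective _ h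
      show a.1 (z, d) = (z, d)
      rwa [hg1] at h5
    refine lib.inj _ (FEP (Option ((G ⧸ K) × ℕ)) D)
      { toFun := fun b => ⟨b.1.1.1.1, hmem b⟩, map_one' := rfl, map_mul' := fun _ _ => rfl } ?_
      (lib.fep _ _ hD)
    rintro ⟨⟨⟨a, c⟩, hac⟩, hb⟩ ⟨⟨⟨a', c'⟩, hac'⟩, hb'⟩ h
    have h1 : c = 1 := hb
    have h2 : c' = 1 := hb'
    have h3' := congrArg (fun z : FEP (Option ((G ⧸ K) × ℕ)) D => z.1) h
    have h3 : (a : Equiv.Perm (Option ((G ⧸ K) × ℕ) × D)) = a' := h3'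
    have h4 : a = a' := Subtype.ext h3
    subst h1 h2 h4
    rfl
  · intro g hg
    have h1 : Φ (j₁ g) = 1 := congrArg (fun z => z.1.1) hg
    have h2 := hR.a g 1
    rw [h1] at h2
    have h3 : (1 : D) = α g * 1 := congrArg Prod.snd h2
    rw [mul_one] at h3
    exact h3.symm

end Q32.RA
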