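import Mathlib
import Pool.Agent.Q32.RA.Ray2
set_option autoImplicit false

namespace Q32.RA

universe u v

/-- the translation action on the lines -/
def tr {G X : Type u} [Group G] [MulAction G X] (D : Type v) [Group D] : G →* EP X D where
  toFun g := ⟨
    { toFun := fun z => (g • z.1, z.2)
      invFun := fun z => (g⁻¹ • z.1, z.2)
      left_inv := by rintro ⟨x, d⟩; simp
      right_inv := by rintro ⟨x, d⟩; simp }, fun _ _ _ => rfl⟩
  map_one' := by
    apply Subtype.ext
    apply Equiv.ext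
    rintro ⟨x, d⟩
    show ((1 : G) • x, d) = (x, d)
    rw [one_smul]
  map_mul' a b := by
    apply Subtype.ext
    apply Equiv.ext
    rintro ⟨x, d⟩
    show ((a * b) • x, d) = (a • b • x, d)
    rw [mul_smul]

/-- the shift on the line of `x₀` -/
noncomputable def sh1 {X : Type u} (x₀ : X) : EP X (Multiplicative ℤ) := ⟨
    { toFun := fun z => (z.1, z.2 * dl x₀ z.1)
      invFun := fun z => (z.1, z.2 * (dl x₀ z.1)⁻¹)
      left_inv := by rintro ⟨x, n⟩; simp
      right_inv := by rintro ⟨x, n⟩; simp }, by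
      rintro x n m
      show (x, (n * m) * dl x₀ x) = (x, n * dl x₀ x * m)
      rw [mul_right_comm]⟩

theorem dl_dd {X : Type u} (x₀ x : X) : Multiplicative.toAdd (dl x₀ x) = dd x₀ x := by
  unfold dl dd
  split_ifs <;> rfl

theorem mag1 : S_MAG1.{u} := by
  intro lib H G₁ G₂ G B _ _ _ _ _ i₁ i₂ j₁ j₂ hA Φ hB
  obtain ⟨Ξ, hΞ1, hΞ2⟩ := hA.lift (EP (B ⧸ (Φ.comp (j₁.comp i₁)).range) (Multiplicative ℤ))
    ((tr (Multiplicative ℤ)).comp (Φ.comp j₁))
    ((MulAut.conj (sh1 ((1 : B) : B ⧸ (Φ.comp (j₁.comp i₁)).range))⁻¹).toMonoidHom.comp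
      ((tr (Multiplicative ℤ)).comp (Φ.comp j₂))) (by
      intro h
      apply Subtype.ext
      apply Equiv.ext
      rintro ⟨x, n⟩
      show (Φ (j₁ (i₁ h)) • x, n) = (Φ (j₂ (i₂ h)) • x, n * dl _ x * (dl _ (Φ (j₂ (i₂ h)) • x))⁻¹)
      rw [← hA.comm]
      have hfix : Φ (j₁ (i₁ h)) • ((1 : B) : B ⧸ (Φ.comp (j₁.comp i₁)).range) =
          ((1 : B) : B ⧸ (Φ.comp (j₁.comp i₁)).range) := by
        show ((Φ (j₁ (i₁ h)) * 1 : B) : B ⧸ (Φ.comp (j₁.comp i₁)).range) = _
        rw [QuotientGroup.eq, mul_one, mul_one]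
        exact Subgroup.inv_mem _ ⟨h, rfl⟩
      have h3 : dl ((1 : B) : B ⧸ (Φ.comp (j₁.comp i₁)).range) (Φ (j₁ (i₁ h)) • x) =
          dl ((1 : B) : B ⧸ (Φ.comp (j₁.comp i₁)).range) x := by
        by_cases hx : x = ((1 : B) : B ⧸ (Φ.comp (j₁.comp i₁)).range)
        · rw [hx, hfix]
        · have hx' : Φ (j₁ (i₁ h)) • x ≠ ((1 : B) : B ⧸ (Φ.comp (j₁.comp i₁)).range) := by
            intro hh
            apply hx
            have h4 : Φ (j₁ (i₁ h)) • x =
                Φ (j₁ (i₁ h)) • ((1 : B) : B ⧸ (Φ.comp (j₁.comp i₁)).range) := hh.trans hfix.symm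
            exact smul_left_cancel _ h4
          unfold dl
          rw [if_neg hx', if_neg hx]
      rw [h3, mul_inv_cancel_right])
  -- the first coordinate
  have hfst : ∀ g z n, ((Ξ g).1 (z, n)).1 = Φ g • z := by
    let S : Subgroup G :=
      { carrier := {g | ∀ z n, ((Ξ g).1 (z, n)).1 = Φ g • z}
        mul_mem' := by
          intro a b ha hb z n
          rw [map_mul, map_mul, mul_smul]
          show ((Ξ a).1 ((Ξ b).1 (z, n))).1 = _
          have : (Ξ b).1 (z, n) = (Φ b • z, ((Ξ b).1 (z, n)).2) := Prod.ext (hb z n) rfl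
          rw [this, ha]
        one_mem' := by
          intro z n
          rw [map_one, map_one, one_smul]
          rfl
        inv_mem' := by
          intro a ha z n
          obtain ⟨z', n', hz'⟩ : ∃ z' n', (Ξ a⁻¹).1 (z, n) = (z', n') := ⟨_, _, rfl⟩
          have h1 : (Ξ a).1 (z', n') = (z, n) := by
            rw [← hz', map_inv]
            exact Equiv.apply_symm_apply (Ξ a).1 (z, n)
          have h2 := ha z' n'
          rw [h1] at h2
          rw [hz', map_inv]
          show z' = (Φ a)⁻¹ • z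
          rw [eq_inv_smul_iff, ← h2] }
    have hS : S = ⊤ := by
      apply hA.gen
      · intro g z n
        rw [hΞ1]; rfl
      · intro g z n
        rw [hΞ2]; rfl
    intro g
    have hg : g ∈ S := by rw [hS]; trivial
    exact hg
  refine ⟨(Φ.prod Ξ).range, inferInstance, (Φ.prod Ξ).rangeRestrict,
    fun g z => Multiplicative.toAdd ((Ξ g).1 (z, 1)).2, ?_, ?_, ?_, ?_, ?_⟩
  · refine lib.ext _ B ((MonoidHom.fst _ _).comp (Φ.prod Ξ).range.subtype) ?_ hB
    have hcomm : ∀ a b : ((MonoidHom.fst _ _).comp (Φ.prod Ξ).range.subtype).ker, a * b = b * a := by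
      rintro ⟨⟨⟨a, c⟩, ⟨g, hg⟩⟩, hb⟩ ⟨⟨⟨a', c'⟩, ⟨g', hg'⟩⟩, hb'⟩
      have e1 : a = 1 := hb
      have e2 : a' = 1 := hb'
      have hg1 : Φ g = a := congrArg Prod.fst hg
      have hg2 : Ξ g = c := congrArg Prod.snd hg
      have hg1' : Φ g' = a' := congrArg Prod.fst hg'
      have hg2' : Ξ g' = c' := congrArg Prod.snd hg'
      apply Subtype.ext
      apply Subtype.ext
      show (a * a', c * c') = (a' * a, c' * c)
      rw [e1, e2]
      congr 1
      apply Subtype.ext
      apply Equiv.ext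
      rintro ⟨z, n⟩
      show c.1 (c'.1 (z, n)) = c'.1 (c.1 (z, n))
      have k1 : ∀ z n, c.1 (z, n) = (z, (c.1 (z, 1)).2 * n) := by
        intro z n
        apply Prod.ext
        · rw [← hg2, hfst, hg1, e1, one_smul]
        · exact ep_snd c z n
      have k2 : ∀ z n, c'.1 (z, n) = (z, (c'.1 (z, 1)).2 * n) := by
        intro z n
        apply Prod.ext
        · rw [← hg2', hfst, hg1', e2, one_smul]
        · exact ep_snd c' z n
      rw [k2 z n, k1 z n]
      rw [k1 z ((c'.1 (z, 1)).2 * n), k2 z ((c.1 (z, 1)).2 * n), mul_left_comm]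
    let _ : CommGroup ((MonoidHom.fst _ _).comp (Φ.prod Ξ).range.subtype).ker :=
      { (inferInstance : Group ((MonoidHom.fst _ _).comp (Φ.prod Ξ).range.subtype).ker) with
        mul_comm := hcomm }
    exact lib.com _
  · intro g z
    show Multiplicative.toAdd ((Ξ (j₁ g)).1 (z, 1)).2 = 0
    rw [hΞ1]; rfl
  · intro g z
    show Multiplicative.toAdd ((Ξ (j₂ g)).1 (z, 1)).2 = _
    rw [hΞ2]
    show Multiplicative.toAdd (1 * dl _ z * (dl _ (Φ (j₂ g) • z))⁻¹) = _
    rw [one_mul, toAdd_mul, toAdd_inv, dl_dd, dl_dd, sub_eq_add_neg]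
  · intro g g' z
    show Multiplicative.toAdd ((Ξ (g * g')).1 (z, 1)).2 =
      Multiplicative.toAdd ((Ξ g).1 (Φ g' • z, 1)).2 + Multiplicative.toAdd ((Ξ g').1 (z, 1)).2
    rw [map_mul]
    show Multiplicative.toAdd ((Ξ g).1 ((Ξ g').1 (z, 1))).2 = _
    have h1 : (Ξ g').1 (z, 1) = (Φ g' • z, ((Ξ g').1 (z, 1)).2) := Prod.ext (hfst _ _ _) rfl
    rw [h1, ep_snd, toAdd_mul]
  · intro g g' h
    have h1 := congrArg Subtype.val h
    have h2 : Φ g = Φ g' := congrArg Prod.fst h1
    have h3 : Ξ g = Ξ g' := congrArg Prod.snd h1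
    refine ⟨h2, ?_⟩
    funext z
    show Multiplicative.toAdd ((Ξ g).1 (z, 1)).2 = Multiplicative.toAdd ((Ξ g').1 (z, 1)).2
    rw [h3]

end Q32.RA
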