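import Mathlib
import Pool.Agent.Q32.RA.Stm
set_option autoImplicit false

namespace Q32.RA

universe u v

theorem dd_self {X : Type u} (a : X) : dd a a = 1 := by simp [dd]

theorem dd_ne {X : Type u} {a b : X} (h : b ≠ a) : dd a b = 0 := by simp [dd, h]

theorem comb_lemma {X : Type u} (e : ℕ → X) (c : ℕ → Bool) (L : ℕ) (hL : 2 ≤ L)
    (hc : ∀ k, k + 1 < L → c k ≠ c (k + 1))
    (he : ∀ i j, i < j → j ≤ L → j - i < L → e i ≠ e j) :
    ∃ w, ∑ k ∈ Finset.range L, (if c k then 0 else dd (e (k + 1)) w - dd (e k) w) ≠ 0 := by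
  have he' : ∀ i j, i ≠ j → i ≤ L → j ≤ L → i < j + L → j < i + L → e i ≠ e j := by
    intro i j hij hi hj h1 h2
    rcases lt_or_gt_of_ne hij with h | h
    · exact he i j h hj (by omega)
    · exact (he j i h hi (by omega)).symm
  have hex : ∃ k, k < L ∧ c k = false := by
    by_cases h0 : c 0 = false
    · exact ⟨0, by omega, h0⟩
    · refine ⟨1, by omega, ?_⟩
      have h1 := hc 0 (by omega)
      simp only [Bool.not_eq_false] at h0
      rw [h0] at h1
      simpa using h1
  obtain ⟨k, hkL, hk⟩ := hex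
  rcases Nat.lt_or_ge (k + 1) L with h | h
  · refine ⟨e (k + 1), ?_⟩
    rw [Finset.sum_eq_single k]
    · rw [hk]
      simp only [Bool.false_eq_true, if_false]
      rw [dd_self, dd_ne (he' (k + 1) k (by omega) (by omega) (by omega) (by omega) (by omega))]
      norm_num
    · intro k' hk' hne
      rw [Finset.mem_range] at hk'
      by_cases hck : c k' = true
      · simp [hck]
      · simp only [Bool.not_eq_true] at hck
        have hne2 : k' ≠ k + 1 := by
          rintro rfl
          have := hc k h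
          rw [hk, hck] at this
          exact this rfl
        rw [hck]
        simp only [Bool.false_eq_true, if_false]
        rw [dd_ne (he' (k + 1) (k' + 1) (by omega) (by omega) (by omega) (by omega) (by omega)),
          dd_ne (he' (k + 1) k' (by omega) (by omega) (by omega) (by omega) (by omega))]
        norm_num
    · intro h'
      exact absurd (Finset.mem_range.2 hkL) h'
  · have hkk : k + 1 = L := by omega
    refine ⟨e k, ?_⟩
    rw [Finset.sum_eq_single k]
    · rw [hk]
      simp only [Bool.false_eq_true, if_false]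
      rw [dd_self, dd_ne (he' k (k + 1) (by omega) (by omega) (by omega) (by omega) (by omega))]
      norm_num
    · intro k' hk' hne
      rw [Finset.mem_range] at hk'
      by_cases hck : c k' = true
      · simp [hck]
      · simp only [Bool.not_eq_true] at hck
        have hne2 : k' + 1 ≠ k := by
          rintro rfl
          have := hc k' (by omega)
          rw [hk, hck] at this
          exact this rfl
        rw [hck]
        simp only [Bool.false_eq_true, if_false]
        rw [dd_ne (he' k (k' + 1) (by omega) (by omega) (by omega) (by omega) (by omega)),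
          dd_ne (he' k k' (by omega) (by omega) (by omega) (by omega) (by omega))]
        norm_num
    · intro h'
      exact absurd (Finset.mem_range.2 hkL) h'

theorem mag2 : S_MAG2.{u} := by
  intro H G₁ G₂ G B B' _ _ _ _ _ _ i₁ j₁ j₂ Φ Φ' s hM y L hL halt hsep h heq
  set x : ℕ → G := fun k => vl j₁ j₂ (y k) with hx
  obtain ⟨h1, h2⟩ := hM.d _ _ heq
  have hs : ∀ m z, s (pr x m) z =
      ∑ k ∈ Finset.range m, s (x k) (Φ ((pr x (k + 1))⁻¹ * pr x m) • z) := by
    intro m
    induction m with
    | zero =>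
      intro z
      have h3 := hM.a 1 z
      rw [map_one] at h3
      simpa [pr] using h3
    | succ m ih =>
      intro z
      rw [Finset.sum_range_succ]
      have h3 : pr x (m + 1) = pr x m * x m := rfl
      rw [h3, hM.c, ih]
      congr 1
      · refine Finset.sum_congr rfl fun k _ => ?_
        rw [smul_smul, ← map_mul, mul_assoc]
      · rw [inv_mul_cancel, map_one, one_smul]
  let z₀ : B ⧸ (Φ.comp (j₁.comp i₁)).range := ((1 : B) : B ⧸ (Φ.comp (j₁.comp i₁)).range)
  let e : ℕ → B ⧸ (Φ.comp (j₁.comp i₁)).range := fun k => Φ (pr x k) • z₀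
  have hdd : ∀ (b : B) (w : B ⧸ (Φ.comp (j₁.comp i₁)).range), dd z₀ (b⁻¹ • w) = dd (b • z₀) w := by
    intro b w
    by_cases hw : w = b • z₀
    · rw [hw, inv_smul_smul, dd_self, dd_self]
    · rw [dd_ne hw, dd_ne]
      intro hh
      apply hw
      rw [← hh, smul_inv_smul]
  have hterm : ∀ k w, s (x k) ((Φ (pr x (k + 1)))⁻¹ • w) =
      if (y k).isLeft then 0 else dd (e (k + 1)) w - dd (e k) w := by
    intro k w
    rcases hy : y k with g | g
    · have : x k = j₁ g := by simp only [hx, hy]; rfl
      rw [this, hM.a]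
      simp
    · have hxk : x k = j₂ g := by simp only [hx, hy]; rfl
      rw [hxk, hM.b]
      have h3 : pr x (k + 1) = pr x k * x k := rfl
      have h4 : Φ (j₂ g) • (Φ (pr x (k + 1)))⁻¹ • w = (Φ (pr x k))⁻¹ • w := by
        rw [h3, hxk, map_mul, mul_inv_rev, smul_smul, mul_inv_cancel_left]
      rw [h4]
      simp only [Sum.isLeft_inr, Bool.false_eq_true, if_false]
      show dd z₀ _ - dd z₀ _ = _
      rw [hdd, hdd]
  obtain ⟨w, hw⟩ := comb_lemma e (fun k => (y k).isLeft) L hL halt (by
    intro i j hij hj hd hh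
    have h3 : (Φ (pr x i))⁻¹ * Φ (pr x j) ∈ (Φ.comp (j₁.comp i₁)).range := by
      have h4 : ((Φ (pr x i) * 1 : B) : B ⧸ (Φ.comp (j₁.comp i₁)).range) =
          ((Φ (pr x j) * 1 : B) : B ⧸ (Φ.comp (j₁.comp i₁)).range) := hh
      rw [mul_one, mul_one, QuotientGroup.eq] at h4
      exact h4
    obtain ⟨h', hh'⟩ := h3
    refine hsep i j hij hj hd h' ?_
    rw [map_mul, map_inv, ← hh']
    rfl)
  apply hw
  have h5 : s (pr x L) ((Φ (pr x L))⁻¹ • w) = 0 := by
    rw [h2, hM.a]
  rw [hs] at h5
  refine Eq.trans (Finset.sum_congr rfl fun k _ => ?_) h5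
  rw [← hterm, map_mul, map_inv, mul_smul, smul_inv_smul]

theorem comb : S_COMB.{u} := by
  intro lib H G _ _ ι S
  classical
  induction S using Finset.induction_on with
  | empty =>
    intro _
    exact ⟨PUnit, inferInstance, 1, lib.fin _, by simp⟩
  | insert a S ha ih =>
    intro hS
    obtain ⟨B, hB, Φ, h1, h2⟩ := ih (fun g hg => hS g (Finset.mem_insert_of_mem hg))
    obtain ⟨B', hB', Φ', h1', h2'⟩ := hS a (Finset.mem_insert_self _ _)
    refine ⟨B × B', inferInstance, Φ.prod Φ', lib.prod _ _ h1 h1', ?_⟩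
    intro g hg h hh
    rcases Finset.mem_insert.1 hg with rfl | hg
    · exact h2' h (congrArg Prod.snd hh)
    · exact h2 g hg h (congrArg Prod.fst hh)

theorem pr_shift {G : Type u} [Group G] (x : ℕ → G) (i : ℕ) : ∀ m,
    pr (fun k => x (i + k)) m = (pr x i)⁻¹ * pr x (i + m)
  | 0 => by simp [pr]
  | m + 1 => by
    show pr (fun k => x (i + k)) m * x (i + m) = (pr x i)⁻¹ * (pr x (i + m) * x (i + m))
    rw [pr_shift x i m, mul_assoc]

theorem mag : S_MAG.{u} := by
  intro lib mag1 mag2 comb H G₁ G₂ G _ _ _ _ i₁ i₂ j₁ j₂ hA hs1 hs2 L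
  classical
  induction L using Nat.strong_induction_on with
  | _ L ih =>
    intro y hL hy
    rcases Nat.lt_or_ge 1 L with h2 | h2
    · set x : ℕ → G := fun k => vl j₁ j₂ (y k) with hx
      have hsub : ∀ i j, i < j → j ≤ L → j - i < L → Sep (j₁.comp i₁) ((pr x i)⁻¹ * pr x j) := by
        intro i j hij hj hd
        have h3 := ih (j - i) hd (fun k => y (i + k)) (by omega) (by
          refine ⟨fun k hk => ?_, fun k hk => ?_⟩
          · exact hy.1 (i + k) (by omega)
          · exact hy.2 (i + k) (by omega))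
        have h4 := pr_shift x i (j - i)
        have h5 : i + (j - i) = j := by omega
        rw [h5] at h4
        rw [← h4]
        exact h3
      let S : Finset G := ((Finset.range (L + 1) ×ˢ Finset.range (L + 1)).filter
        (fun q => q.1 < q.2 ∧ q.2 - q.1 < L)).image (fun q => (pr x q.1)⁻¹ * pr x q.2)
      obtain ⟨B, hB, Φ, hB1, hB2⟩ := comb lib H G (j₁.comp i₁) S (by
        intro g hg
        simp only [S, Finset.mem_image, Finset.mem_filter, Finset.mem_product,
          Finset.mem_range] at hg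
        obtain ⟨q, ⟨⟨hq1, hq2⟩, hq3, hq4⟩, rfl⟩ := hg
        exact hsub _ _ hq3 (by omega) hq4)
      obtain ⟨B', hB', Φ', s, hB'1, hM⟩ := mag1 lib H G₁ G₂ G B i₁ i₂ j₁ j₂ hA Φ hB1
      refine ⟨B', hB', Φ', hB'1, ?_⟩
      refine mag2 H G₁ G₂ G B B' i₁ j₁ j₂ Φ Φ' s hM y L h2 hy.1 ?_
      intro i j hij hj hd h
      refine hB2 _ ?_ h
      simp only [S, Finset.mem_image, Finset.mem_filter, Finset.mem_product,
          Finset.mem_range]
      exact ⟨(i, j), ⟨⟨by omega, by omega⟩, hij, hd⟩, rfl⟩
    · have h1 : L = 1 := by omega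
      subst h1
      have h3 : pr (fun k => vl j₁ j₂ (y k)) 1 = vl j₁ j₂ (y 0) := by
        show 1 * vl j₁ j₂ (y 0) = _
        rw [one_mul]
      rw [h3]
      have h4 := hy.2 0 (by omega)
      rcases h5 : y 0 with g | g
      · rw [h5] at h4
        exact hs1 g h4
      · rw [h5] at h4
        exact hs2 g h4

end Q32.RA
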