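import Mathlib
import Pool.Agent.Q32.RA.Stm
set_option autoImplicit false

namespace Q32.RA

universe u v

open Classical in
/-- inverse of `th` -/
noncomputable def thInv {F : Type u} (x₀ : F) : F × ℕ → Option (F × ℕ) := fun p =>
  if p.1 = x₀ then (match p.2 with
    | 0 => none
    | n + 1 => some (x₀, n)) else some p

/-- `th` as a bijection -/
noncomputable def thE {F : Type u} (x₀ : F) : Option (F × ℕ) ≃ F × ℕ where
  toFun := th x₀
  invFun := thInv x₀
  left_inv := by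
    rintro (_ | ⟨x, n⟩)
    · simp [th, thInv]
    · by_cases h : x = x₀
      · subst h; simp [th, thInv]
      · simp [th, thInv, h]
  right_inv := by
    rintro ⟨x, n⟩
    by_cases h : x = x₀
    · subst h
      rcases n with _ | n
      · simp [th, thInv]
      · simp [th, thInv]
    · simp [th, thInv, h]

/-- an element of `EP F D` acting on `(F × ℕ) × D` levelwise -/
def lev {F D : Type u} [Group D] : EP F D →* EP (F × ℕ) D where
  toFun σ := ⟨
    { toFun := fun z => (((σ.1 (z.1.1, z.2)).1, z.1.2), (σ.1 (z.1.1, z.2)).2)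
      invFun := fun z => (((σ.1⁻¹ (z.1.1, z.2)).1, z.1.2), (σ.1⁻¹ (z.1.1, z.2)).2)
      left_inv := by
        rintro ⟨⟨x, n⟩, d⟩
        simp
      right_inv := by
        rintro ⟨⟨x, n⟩, d⟩
        simp }, by
      rintro ⟨x, n⟩ d e
      show (((σ.1 (x, d * e)).1, n), (σ.1 (x, d * e)).2) =
        (((σ.1 (x, d)).1, n), (σ.1 (x, d)).2 * e)
      rw [σ.2 x d e]⟩
  map_one' := by
    apply Subtype.ext
    apply Equiv.ext
    rintro ⟨⟨x, n⟩, d⟩
    rfl
  map_mul' a b := by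
    apply Subtype.ext
    apply Equiv.ext
    rintro ⟨⟨x, n⟩, d⟩
    rfl

/-- conjugation by a bijection of the index sets -/
def cjE {Z Z' : Type u} {D : Type v} [Group D] (e : Z ≃ Z') : EP Z' D →* EP Z D where
  toFun σ := ⟨
    { toFun := fun z => (e.symm (σ.1 (e z.1, z.2)).1, (σ.1 (e z.1, z.2)).2)
      invFun := fun z => (e.symm (σ.1⁻¹ (e z.1, z.2)).1, (σ.1⁻¹ (e z.1, z.2)).2)
      left_inv := by
        rintro ⟨x, d⟩
        simp
      right_inv := by
        rintro ⟨x, d⟩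
        simp }, by
      rintro x d y
      show (e.symm (σ.1 (e x, d * y)).1, (σ.1 (e x, d * y)).2) =
        (e.symm (σ.1 (e x, d)).1, (σ.1 (e x, d)).2 * y)
      rw [σ.2 (e x) d y]⟩
  map_one' := by
    apply Subtype.ext
    apply Equiv.ext
    rintro ⟨x, d⟩
    show (e.symm (e x), d) = (x, d)
    rw [e.symm_apply_apply]
  map_mul' a b := by
    apply Subtype.ext
    apply Equiv.ext
    rintro ⟨x, d⟩
    show (e.symm (a.1 (b.1 (e x, d))).1, (a.1 (b.1 (e x, d))).2) =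
      (e.symm (a.1 (e (e.symm (b.1 (e x, d)).1), (b.1 (e x, d)).2)).1,
        (a.1 (e (e.symm (b.1 (e x, d)).1), (b.1 (e x, d)).2)).2)
    rw [e.apply_symm_apply]

/-- adding a point -/
def addPt {Z : Type u} {D : Type v} [Group D] : EP Z D × D →* EP (Option Z) D where
  toFun σ := ⟨
    { toFun := fun z => match z with
        | (none, d) => (none, σ.2 * d)
        | (some x, d) => (some (σ.1.1 (x, d)).1, (σ.1.1 (x, d)).2)
      invFun := fun z => match z with
        | (none, d) => (none, σ.2⁻¹ * d)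
        | (some x, d) => (some (σ.1.1⁻¹ (x, d)).1, (σ.1.1⁻¹ (x, d)).2)
      left_inv := by
        rintro ⟨_ | x, d⟩
        · simp
        · simp
      right_inv := by
        rintro ⟨_ | x, d⟩
        · simp
        · simp }, by
      rintro (_ | x) d y
      · show (none, σ.2 * (d * y)) = (none, σ.2 * d * y)
        rw [mul_assoc]
      · show (some (σ.1.1 (x, d * y)).1, (σ.1.1 (x, d * y)).2) =
          (some (σ.1.1 (x, d)).1, (σ.1.1 (x, d)).2 * y)
        rw [σ.1.2 x d y]⟩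
  map_one' := by
    apply Subtype.ext
    apply Equiv.ext
    rintro ⟨_ | x, d⟩
    · show (none, (1 : D) * d) = (none, d)
      rw [one_mul]
    · rfl
  map_mul' a b := by
    apply Subtype.ext
    apply Equiv.ext
    rintro ⟨_ | x, d⟩
    · show (none, a.2 * b.2 * d) = (none, a.2 * (b.2 * d))
      rw [mul_assoc]
    · rfl

/-- acting on `F × (ℤ × D)` -/
def levZ {F D : Type u} [Group D] : EP F D →* EP F (Multiplicative ℤ × D) where
  toFun σ := ⟨
    { toFun := fun z => ((σ.1 (z.1, z.2.2)).1, (z.2.1, (σ.1 (z.1, z.2.2)).2))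
      invFun := fun z => ((σ.1⁻¹ (z.1, z.2.2)).1, (z.2.1, (σ.1⁻¹ (z.1, z.2.2)).2))
      left_inv := by
        rintro ⟨x, n, d⟩
        simp
      right_inv := by
        rintro ⟨x, n, d⟩
        simp }, by
      rintro x ⟨n, d⟩ ⟨m, e⟩
      show ((σ.1 (x, d * e)).1, (n * m, (σ.1 (x, d * e)).2)) =
        ((σ.1 (x, d)).1, (n * m, (σ.1 (x, d)).2 * e))
      rw [σ.2 x d e]⟩
  map_one' := by
    apply Subtype.ext
    apply Equiv.ext
    rintro ⟨x, n, d⟩
    rfl
  map_mul' a b := by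
    apply Subtype.ext
    apply Equiv.ext
    rintro ⟨x, n, d⟩
    rfl

/-- the shift of `F × (ℤ × D)` on the line of `x₀` -/
noncomputable def shE {F D : Type u} [Group D] (x₀ : F) : EP F (Multiplicative ℤ × D) := ⟨
    { toFun := fun z => (z.1, (z.2.1 * dl x₀ z.1, z.2.2))
      invFun := fun z => (z.1, (z.2.1 * (dl x₀ z.1)⁻¹, z.2.2))
      left_inv := by
        rintro ⟨x, n, d⟩
        simp
      right_inv := by
        rintro ⟨x, n, d⟩
        simp }, by
      rintro x ⟨n, d⟩ ⟨m, e⟩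
      show (x, (n * m * dl x₀ x, d * e)) = (x, (n * dl x₀ x * m, d * e))
      rw [mul_right_comm]⟩

theorem ray1 : S_RAY1.{u} := by
  intro H G₁ G₂ G F D _ _ _ _ _ i₁ i₂ j₁ j₂ hA x₀ Ψ α hΨ
  -- the line of x₀ is invariant under H
  have hx : ∀ h x d, ((Ψ (j₁ (i₁ h))).1 (x, d)).1 = x₀ → x = x₀ := by
    intro h x d hh
    obtain ⟨x', d', hd⟩ : ∃ x' d', (Ψ (j₁ (i₁ h))).1 (x, d) = (x', d') := ⟨_, _, rfl⟩
    rw [hd] at hh
    simp only at hh
    subst hh
    have h1 := hΨ h ((α (i₁ h))⁻¹ * d')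
    rw [mul_inv_cancel_left, ← hd] at h1
    exact (congrArg Prod.fst ((Ψ (j₁ (i₁ h))).1.injective h1)).symm
  obtain ⟨Φ, hΦ1, hΦ2⟩ := hA.lift (EP (Option (F × ℕ)) D)
    (addPt.comp ((lev.comp (Ψ.comp j₁)).prod α))
    ((cjE (thE x₀)).comp (lev.comp (Ψ.comp j₂))) (by
      intro h
      apply Subtype.ext
      apply Equiv.ext
      rintro ⟨_ | ⟨x, n⟩, d⟩
      · show (none, α (i₁ h) * d) = (thInv x₀ (((Ψ (j₂ (i₂ h))).1 (x₀, d)).1, 0),
          ((Ψ (j₂ (i₂ h))).1 (x₀, d)).2)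
        rw [← hA.comm, hΨ]
        simp [thInv]
      · by_cases hxx : x = x₀
        · subst hxx
          show (some (((Ψ (j₁ (i₁ h))).1 (x, d)).1, n), ((Ψ (j₁ (i₁ h))).1 (x, d)).2) =
            (thInv x (((Ψ (j₂ (i₂ h))).1 ((th x (some (x, n))).1, d)).1, (th x (some (x, n))).2),
              ((Ψ (j₂ (i₂ h))).1 ((th x (some (x, n))).1, d)).2)
          have h1 : th x (some (x, n)) = (x, n + 1) := by simp [th]
          rw [h1, ← hA.comm]
          simp only [hΨ]
          simp [thInv]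
        · show (some (((Ψ (j₁ (i₁ h))).1 (x, d)).1, n), ((Ψ (j₁ (i₁ h))).1 (x, d)).2) =
            (thInv x₀ (((Ψ (j₂ (i₂ h))).1 ((th x₀ (some (x, n))).1, d)).1, (th x₀ (some (x, n))).2),
              ((Ψ (j₂ (i₂ h))).1 ((th x₀ (some (x, n))).1, d)).2)
          have h1 : th x₀ (some (x, n)) = (x, n) := by simp [th, hxx]
          have h2 : ((Ψ (j₁ (i₁ h))).1 (x, d)).1 ≠ x₀ := fun hh => hxx (hx h x d hh)
          rw [h1, ← hA.comm]
          simp [thInv, h2])
  obtain ⟨Λ, hΛ1, hΛ2⟩ := hA.lift (EP F (Multiplicative ℤ × D))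
    (levZ.comp (Ψ.comp j₁))
    ((MulAut.conj (shE x₀)⁻¹).toMonoidHom.comp (levZ.comp (Ψ.comp j₂))) (by
      intro h
      apply Subtype.ext
      apply Equiv.ext
      rintro ⟨x, n, d⟩
      show (((Ψ (j₁ (i₁ h))).1 (x, d)).1, (n, ((Ψ (j₁ (i₁ h))).1 (x, d)).2)) =
        (((Ψ (j₂ (i₂ h))).1 (x, d)).1, (n * dl x₀ x * (dl x₀ ((Ψ (j₂ (i₂ h))).1 (x, d)).1)⁻¹,
          ((Ψ (j₂ (i₂ h))).1 (x, d)).2))
      rw [← hA.comm]
      have h3 : dl x₀ ((Ψ (j₁ (i₁ h))).1 (x, d)).1 = dl x₀ x := by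
        by_cases hxx : x = x₀
        · subst hxx
          rw [hΨ]
        · have h2 : ((Ψ (j₁ (i₁ h))).1 (x, d)).1 ≠ x₀ := fun hh => hxx (hx h x d hh)
          simp [dl, h2, hxx]
      rw [h3, mul_inv_cancel_right])
  refine ⟨Φ, Λ, ?_, ?_, ?_, ?_, ?_⟩
  · intro g d
    rw [hΦ1]; rfl
  · intro g x n d
    rw [hΦ1]; rfl
  · intro g z d
    rw [hΦ2]
    show (thE x₀ ((thE x₀).symm _), _) = _
    rw [Equiv.apply_symm_apply]
    rfl
  · intro g x n d
    rw [hΛ1]; rfl
  · intro g x n d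
    rw [hΛ2]; rfl

end Q32.RA
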