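import Mathlib
import Pool.Agent.Q32.RA.Stm
set_option autoImplicit false

namespace Q32.RA

universe u v

theorem sep : S_SEP.{u} := by
  intro lib ind H G₁ G _ _ _ i₁ j₁ K ρ hK hρ hvc hres hray g hg
  have hfin : Finite (G ⧸ K) := inferInstance
  by_cases hk : j₁ g ∈ K
  · obtain ⟨Ψ, -, hΨ⟩ := ind G H K ρ
    let h₀ : H := ρ ⟨j₁ g, hk⟩
    have hy : g * (i₁ h₀)⁻¹ ≠ 1 := by
      intro h
      exact hg ⟨h₀, (mul_inv_eq_one.1 h).symm⟩
    obtain ⟨D, hD, α, hD1, hα⟩ := hres _ hy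
    obtain ⟨B, hB, Φ, hB1, hΦ⟩ := hray D α hD1
    refine ⟨B × EP (G ⧸ K) H, inferInstance, Φ.prod Ψ,
      lib.prod _ _ hB1 (lib.ep _ _ (lib.vc H hvc)), ?_⟩
    intro h heq
    have h1 : Φ (j₁ g) = Φ (j₁ (i₁ h)) := congrArg Prod.fst heq
    have h2 : Ψ (j₁ g) = Ψ (j₁ (i₁ h)) := congrArg Prod.snd heq
    obtain ⟨hk', hh⟩ := hρ h
    have h3 := hΨ ⟨j₁ g, hk⟩ 1
    have h4 := hΨ ⟨j₁ (i₁ h), hk'⟩ 1
    have h5 : (Ψ (j₁ g)).1 (((1 : G) : G ⧸ K), 1) = (Ψ (j₁ (i₁ h))).1 (((1 : G) : G ⧸ K), 1) := by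
      rw [h2]
    have h6 : ρ ⟨j₁ g, hk⟩ * 1 = ρ ⟨j₁ (i₁ h), hk'⟩ * 1 := by
      have := h3.symm.trans (h5.trans h4)
      exact congrArg Prod.snd this
    rw [mul_one, mul_one, hh] at h6
    have h7 : h₀ = h := h6
    apply hα
    apply hΦ
    rw [map_mul, map_mul, map_inv, map_inv, h7, h1, mul_inv_cancel]
  · refine ⟨Equiv.Perm (G ⧸ K), inferInstance, MulAction.toPermHom G (G ⧸ K), ?_, ?_⟩
    · have : Finite (Equiv.Perm (G ⧸ K)) := inferInstance
      exact lib.fin _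
    · intro h heq
      obtain ⟨hk', -⟩ := hρ h
      have h1 : j₁ g • ((1 : G) : G ⧸ K) = j₁ (i₁ h) • ((1 : G) : G ⧸ K) :=
        congrArg (fun σ : Equiv.Perm (G ⧸ K) => σ ((1 : G) : G ⧸ K)) heq
      have h2 : ((j₁ g * 1 : G) : G ⧸ K) = ((j₁ (i₁ h) * 1 : G) : G ⧸ K) := h1
      rw [mul_one, mul_one, QuotientGroup.eq] at h2
      apply hk
      have h3 := K.mul_mem hk' (K.inv_mem h2)
      simpa using h3

theorem po : S_PO.{u} := by
  intro G H _ _ φ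
  refine ⟨?_, ?_, ?_⟩
  · intro h
    rw [Monoid.PushoutI.of_apply_eq_base, Monoid.PushoutI.of_apply_eq_base]
  · intro S h0 h1
    rw [eq_top_iff]
    rintro x -
    induction x using Monoid.PushoutI.induction_on with
    | of i g =>
      fin_cases i
      · exact h0 g
      · exact h1 g
    | base h =>
      rw [← Monoid.PushoutI.of_apply_eq_base φ 0]
      exact h0 _
    | mul x y hx hy => exact S.mul_mem hx hy
  · intro B _ f₁ f₂ hf
    let f : ∀ i, G i →* B := Fin.cons f₁ (Fin.cons f₂ finZeroElim)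
    have hf' : ∀ i, (f i).comp (φ i) = f₁.comp (φ 0) := by
      intro i
      fin_cases i
      · rfl
      · ext h; exact (hf h).symm
    refine ⟨Monoid.PushoutI.lift f (f₁.comp (φ 0)) hf', ?_, ?_⟩
    · intro g
      exact Monoid.PushoutI.lift_of f _ hf' g
    · intro g
      exact Monoid.PushoutI.lift_of f _ hf' g

end Q32.RA
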