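import Mathlib
import Pool.Agent.Q32.RA.Stm
set_option autoImplicit false

namespace Q32.RA

universe u v

theorem tfa : S_TFA.{u} := by
  intro E _ hfg hva
  obtain ⟨A0, hA0, hA0c⟩ := hva
  set A : Subgroup E := A0.normalCore with hAdef
  have hA : A.FiniteIndex := inferInstanceAs A0.normalCore.FiniteIndex
  have hAn : A.Normal := inferInstanceAs A0.normalCore.Normal
  have hAfg : Group.FG A := Subgroup.fg_of_index_ne_zero (H := A)
  let instA : CommGroup A :=
    { (inferInstance : Group A) with
      mul_comm := fun a b => Subtype.ext (hA0c _ (Subgroup.normalCore_le _ a.2) _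
        (Subgroup.normalCore_le _ b.2)) }
  obtain ⟨n, M, v, hM, -, hT⟩ := Q31VA.exists_coord A
  let K : Subgroup A := (powMonoidHom M : A →* A).range
  have hKfi : K.FiniteIndex := by
    have : Finite (A ⧸ K) := by
      apply CommGroup.finite_of_fg_isMulTorsion
      intro x
      obtain ⟨a, rfl⟩ := QuotientGroup.mk'_surjective K x
      rw [isOfFinOrder_iff_pow_eq_one]
      refine ⟨M, hM, ?_⟩
      rw [← map_pow]
      exact (QuotientGroup.eq_one_iff _).2 ⟨a, rfl⟩
    exact Subgroup.finiteIndex_of_finite_quotient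
  have hmem : ∀ x, x ∈ K.map A.subtype ↔ ∃ a : A, x = (a : E) ^ M := by
    intro x
    constructor
    · rintro ⟨_, ⟨a, rfl⟩, rfl⟩
      exact ⟨a, by simp [powMonoidHom]⟩
    · rintro ⟨a, rfl⟩
      exact ⟨a ^ M, ⟨a, rfl⟩, by simp⟩
  refine ⟨K.map A.subtype, ?_, ?_, ?_, ?_⟩
  · constructor
    intro x hx g
    obtain ⟨a, rfl⟩ := (hmem x).1 hx
    refine (hmem _).2 ⟨⟨g * a * g⁻¹, hAn.conj_mem _ a.2 g⟩, ?_⟩
    exact conj_pow.symm
  · constructor
    rw [Subgroup.index_map_subtype]
    exact mul_ne_zero hKfi.index_ne_zero hA.index_ne_zero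
  · intro x hx y hy
    obtain ⟨a, rfl⟩ := (hmem x).1 hx
    obtain ⟨b, rfl⟩ := (hmem y).1 hy
    have h1 : (a ^ M) * (b ^ M) = (b ^ M) * (a ^ M) := mul_comm _ _
    have h2 := congrArg Subtype.val h1
    simpa using h2
  · intro w hw
    by_contra hcon
    push Not at hcon
    apply hw
    obtain ⟨a, ha⟩ := (hmem w).1 w.2
    have hle : K.map A.subtype ≤ A := by
      rintro x ⟨a, -, rfl⟩
      exact a.2
    let r : ∀ i : Fin n, (K.map A.subtype : Subgroup E) →* Multiplicative ℤ := fun i =>
      { toFun := fun x => Multiplicative.ofAdd (Multiplicative.toAdd (v ⟨x, hle x.2⟩) i)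
        map_one' := by
          have : (⟨((1 : (K.map A.subtype : Subgroup E)) : E), hle (1 : (K.map A.subtype : Subgroup E)).2⟩ : A) = 1 := rfl
          rw [this, map_one]; rfl
        map_mul' := by
          intro x y
          have : (⟨((x * y : (K.map A.subtype : Subgroup E)) : E), hle (x * y).2⟩ : A) =
            ⟨x, hle x.2⟩ * ⟨y, hle y.2⟩ := rfl
          rw [this, map_mul]; rfl }
    have hv : v (a ^ M) = 1 := by
      apply Multiplicative.toAdd.injective
      funext i
      have h1 := hcon (r i)
      have h2 : Multiplicative.toAdd (v ⟨w, hle w.2⟩) i = 0 := Multiplicative.ofAdd.injective h1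
      have h3 : (⟨w, hle w.2⟩ : A) = a ^ M := Subtype.ext (by rw [ha]; simp)
      rw [h3] at h2
      exact h2
    have hva : v a = 1 := by
      rw [map_pow] at hv
      apply Multiplicative.toAdd.injective
      funext i
      have h1 := congrFun (congrArg Multiplicative.toAdd hv) i
      rw [toAdd_pow] at h1
      have h2 : (M : ℤ) * Multiplicative.toAdd (v a) i = 0 := by
        have h3 : (M • Multiplicative.toAdd (v a)) i = (M : ℤ) * Multiplicative.toAdd (v a) i := by
          rw [Pi.smul_apply, nsmul_eq_mul]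
        rw [← h3, h1]; rfl
      rcases mul_eq_zero.1 h2 with h3 | h3
      · exfalso
        have : M = 0 := by exact_mod_cast h3
        omega
      · exact h3
    have h1 := hT a hva
    apply Subtype.ext
    rw [ha]
    have h2 := congrArg Subtype.val h1
    simpa using h2

end Q32.RA
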