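import Mathlib
import Pool.Agent.Q32.RA.Stm
set_option autoImplicit false

namespace Q32.RA

universe u v

/-- semidirect products give retractions -/
theorem retr {G : Type u} [Group G] (C H' : Subgroup G) (hn : ∀ c ∈ C, ∀ h ∈ H', c * h * c⁻¹ ∈ H')
    (hi : ∀ x ∈ H', x ∈ C → x = 1) (M : Subgroup G) (hM : M.FiniteIndex)
    (hMK : ∀ x ∈ M, ∃ h ∈ H', ∃ c ∈ C, x = h * c) : IsVirtRetract C := by
  let K : Subgroup G :=
    { carrier := {x | ∃ h ∈ H', ∃ c ∈ C, x = h * c}
      mul_mem' := by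
        rintro _ _ ⟨h, hh, c, hc, rfl⟩ ⟨h', hh', c', hc', rfl⟩
        refine ⟨h * (c * h' * c⁻¹), H'.mul_mem hh (hn c hc h' hh'), c * c', C.mul_mem hc hc', ?_⟩
        group
      one_mem' := ⟨1, H'.one_mem, 1, C.one_mem, by simp⟩
      inv_mem' := by
        rintro _ ⟨h, hh, c, hc, rfl⟩
        refine ⟨c⁻¹ * h⁻¹ * c⁻¹⁻¹, hn _ (C.inv_mem hc) _ (H'.inv_mem hh), c⁻¹, C.inv_mem hc, ?_⟩
        group }
  have hK : K.FiniteIndex := Subgroup.finiteIndex_of_le (show M ≤ K from fun x hx => hMK x hx)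
  have hCK : C ≤ K := fun c hc => ⟨1, H'.one_mem, c, hc, by simp⟩
  have huniq : ∀ h ∈ H', ∀ c ∈ C, ∀ h' ∈ H', ∀ c' ∈ C, h * c = h' * c' → c = c' := by
    intro h hh c hc h' hh' c' hc' he
    have h1 : h'⁻¹ * h = c' * c⁻¹ := by
      rw [inv_mul_eq_iff_eq_mul, ← mul_assoc, ← he]
      group
    have h2 := hi (h'⁻¹ * h) (H'.mul_mem (H'.inv_mem hh') hh) (h1 ▸ C.mul_mem hc' (C.inv_mem hc))
    rw [h1] at h2
    exact (mul_inv_eq_one.1 h2).symm
  have hch : ∀ x : K, ∃ c : C, ∃ h ∈ H', (x : G) = h * c := by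
    rintro ⟨x, h, hh, c, hc, rfl⟩
    exact ⟨⟨c, hc⟩, h, hh, rfl⟩
  choose ρ hρ using hch
  have hρ' : ∀ (x : K) (h : G) (c : C), h ∈ H' → (x : G) = h * c → ρ x = c := by
    intro x h c hh hx
    obtain ⟨h', hh', hx'⟩ := hρ x
    apply Subtype.ext
    exact huniq _ hh' _ (ρ x).2 _ hh _ c.2 (hx'.symm.trans hx)
  refine ⟨K, hK, hCK, { toFun := ρ, map_one' := ?_, map_mul' := ?_ }, ?_⟩
  · exact hρ' 1 1 1 H'.one_mem (by simp)
  · intro x y
    obtain ⟨h, hh, hx⟩ := hρ x
    obtain ⟨h', hh', hy⟩ := hρ y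
    refine hρ' (x * y) (h * ((ρ x : G) * h' * (ρ x : G)⁻¹)) (ρ x * ρ y)
      (H'.mul_mem hh (hn _ (ρ x).2 _ hh')) ?_
    show (x : G) * (y : G) = _
    conv_lhs => rw [hx, hy]
    show _ = _ * ((ρ x : G) * (ρ y : G))
    group
  · intro x
    exact hρ' _ 1 x H'.one_mem (by simp)

section main

variable {G : Type u} [Group G] (C N : Subgroup G) [hN : N.Normal] (l : N →* Multiplicative ℤ)

/-- `l` of a conjugate, additive -/
def lc (c : G) (y : N) : ℤ := Multiplicative.toAdd (l ⟨c⁻¹ * y * c⁻¹⁻¹, hN.conj_mem _ y.2 _⟩)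

theorem lc_mul (c : G) (y y' : N) : lc N l c (y * y') = lc N l c y + lc N l c y' := by
  unfold lc
  rw [← toAdd_mul, ← map_mul]
  congr 2
  apply Subtype.ext
  show c⁻¹ * ((y : G) * y') * c⁻¹⁻¹ = (c⁻¹ * y * c⁻¹⁻¹) * (c⁻¹ * y' * c⁻¹⁻¹)
  group

theorem lc_zpow (c : G) (y : N) (n : ℤ) : lc N l c (y ^ n) = n * lc N l c y := by
  let f : N →* Multiplicative ℤ :=
    { toFun := fun y => Multiplicative.ofAdd (lc N l c y)
      map_one' := by
        have h := lc_mul N l c 1 1
        rw [mul_one] at h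
        have : lc N l c 1 = 0 := by omega
        rw [this]; rfl
      map_mul' := fun a b => by rw [lc_mul]; rfl }
  have h1 : f (y ^ n) = f y ^ n := map_zpow f y n
  have h2 := congrArg Multiplicative.toAdd h1
  rw [toAdd_zpow, smul_eq_mul] at h2
  exact h2

theorem lc_coset (c n : G) (hn : n ∈ N) (y : N) : lc N l (c * n) y = lc N l c y := by
  unfold lc
  congr 1
  have h1 : (⟨(c * n)⁻¹ * y * (c * n)⁻¹⁻¹, hN.conj_mem _ y.2 _⟩ : N) =
      (⟨n, hn⟩ : N)⁻¹ * ⟨c⁻¹ * y * c⁻¹⁻¹, hN.conj_mem _ y.2 _⟩ * ⟨n, hn⟩ := by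
    apply Subtype.ext
    show (c * n)⁻¹ * y * (c * n)⁻¹⁻¹ = n⁻¹ * (c⁻¹ * y * c⁻¹⁻¹) * n
    group
  rw [h1, map_mul, map_mul, map_inv, mul_comm, mul_inv_cancel_left]

end main

theorem vfp : S_VFP.{u} := by
  intro G _ C N hN hNf l hl
  classical
  by_cases htriv : ∀ x : N, (x : G) ∈ C → x = 1
  · refine retr C N (fun c _ h hh => hN.conj_mem h hh c) ?_ N hNf ?_
    · intro x hx hxC
      exact congrArg Subtype.val (htriv ⟨x, hx⟩ hxC)
    · intro x hx
      exact ⟨x, hx, 1, C.one_mem, (mul_one x).symm⟩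
  · push Not at htriv
    obtain ⟨w, hwC, hw1⟩ := htriv
    let D' : Subgroup C := N.subgroupOf C
    have hD'f : D'.FiniteIndex := inferInstance
    have : Finite (C ⧸ D') := inferInstance
    let _ := Fintype.ofFinite (C ⧸ D')
    -- the bilinear form
    let T : N → ℤ := fun y => ∑ q : C ⧸ D', lc N l (q.out : C) w * lc N l (q.out : C) y
    have hout : ∀ (c : C) (y : N), lc N l ((QuotientGroup.mk c : C ⧸ D').out : C) y =
        lc N l (c : G) y := by
      intro c y
      have h1 : (QuotientGroup.mk c : C ⧸ D').out = c * (c⁻¹ * (QuotientGroup.mk c : C ⧸ D').out) := by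
        group
      have h2 : c⁻¹ * (QuotientGroup.mk c : C ⧸ D').out ∈ D' := by
        rw [← QuotientGroup.eq]
        exact (QuotientGroup.out_eq' _).symm
      rw [h1]
      exact lc_coset N l (c : G) _ h2 y
    have hTmul : ∀ y y', T (y * y') = T y + T y' := by
      intro y y'
      simp only [T, lc_mul, mul_add, Finset.sum_add_distrib]
    have hTz : ∀ y (n : ℤ), T (y ^ n) = n * T y := by
      intro y n
      simp only [T, lc_zpow, Finset.mul_sum]
      refine Finset.sum_congr rfl fun q _ => ?_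
      ring
    have hl1 : ∀ y : N, lc N l 1 y = Multiplicative.toAdd (l y) := by
      intro y
      unfold lc
      congr 2
      apply Subtype.ext
      show (1 : G)⁻¹ * y * (1 : G)⁻¹⁻¹ = y
      group
    -- commensurability in `D`
    have hcomm : ∀ x : N, (x : G) ∈ C → x ^ (Multiplicative.toAdd (l w)) =
        w ^ (Multiplicative.toAdd (l x)) := by
      intro x hx
      have h1 : x ^ (Multiplicative.toAdd (l w)) * (w ^ (Multiplicative.toAdd (l x)))⁻¹ = 1 := by
        apply hl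
        · show ((x ^ (Multiplicative.toAdd (l w)) : N) : G) *
            ((w ^ (Multiplicative.toAdd (l x)) : N) : G)⁻¹ ∈ C
          refine C.mul_mem ?_ (C.inv_mem ?_)
          · rw [Subgroup.coe_zpow]; exact C.zpow_mem hx _
          · rw [Subgroup.coe_zpow]; exact C.zpow_mem hwC _
        · rw [map_mul, map_inv, map_zpow, map_zpow]
          apply Multiplicative.toAdd.injective
          rw [toAdd_mul, toAdd_inv, toAdd_zpow, toAdd_zpow, toAdd_one, smul_eq_mul, smul_eq_mul]
          ring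
      exact mul_inv_eq_one.1 h1
    have hlw : Multiplicative.toAdd (l w) ≠ 0 := by
      intro h
      apply hw1
      exact hl w hwC (Multiplicative.toAdd.injective h)
    have hTw : T w ≠ 0 := by
      have h0 : 0 < T w := by
        refine Finset.sum_pos' (fun q _ => mul_self_nonneg _) ⟨(QuotientGroup.mk 1 : C ⧸ D'),
          Finset.mem_univ _, ?_⟩
        rw [hout]
        have h1 : lc N l ((1 : C) : G) w ≠ 0 := by
          rw [Subgroup.coe_one, hl1]; exact hlw
        exact mul_self_pos.2 h1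
      exact h0.ne'
    -- invariance
    have hTconj : ∀ (c : C) (y : N), T y = 0 →
        T ⟨(c : G) * y * (c : G)⁻¹, hN.conj_mem _ y.2 _⟩ = 0 := by
      intro c y hy
      have h1 : T ⟨(c : G) * y * (c : G)⁻¹, hN.conj_mem _ y.2 _⟩ =
          ∑ q : C ⧸ D', lc N l (q.out : C) ⟨(c : G)⁻¹ * w * (c : G)⁻¹⁻¹, hN.conj_mem _ w.2 _⟩ *
            lc N l (q.out : C) y := by
        refine (Fintype.sum_equiv (MulAction.toPerm c) _ _ fun q => ?_).symm
        obtain ⟨d, rfl⟩ := QuotientGroup.mk_surjective q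
        have h2 : MulAction.toPerm c (QuotientGroup.mk d : C ⧸ D') =
            (QuotientGroup.mk (c * d) : C ⧸ D') := rfl
        rw [h2, hout, hout, hout, hout]
        unfold lc
        congr 4
        · show (d : G)⁻¹ * ((c : G)⁻¹ * w * (c : G)⁻¹⁻¹) * (d : G)⁻¹⁻¹ =
            ((c * d : C) : G)⁻¹ * w * ((c * d : C) : G)⁻¹⁻¹
          rw [Subgroup.coe_mul]
          group
        · show (d : G)⁻¹ * y * (d : G)⁻¹⁻¹ =
            ((c * d : C) : G)⁻¹ * ((c : G) * y * (c : G)⁻¹) * ((c * d : C) : G)⁻¹⁻¹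
          rw [Subgroup.coe_mul]
          group
      set x : N := ⟨(c : G)⁻¹ * w * (c : G)⁻¹⁻¹, hN.conj_mem _ w.2 _⟩ with hx
      have hxC : (x : G) ∈ C := C.mul_mem (C.mul_mem (C.inv_mem c.2) hwC) (C.inv_mem (C.inv_mem c.2))
      have h3 : Multiplicative.toAdd (l w) * T ⟨(c : G) * y * (c : G)⁻¹, hN.conj_mem _ y.2 _⟩ =
          Multiplicative.toAdd (l x) * T y := by
        rw [h1]
        simp only [T, Finset.mul_sum]
        refine Finset.sum_congr rfl fun q _ => ?_
        have h4 : Multiplicative.toAdd (l w) * lc N l (q.out : C) x =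
            Multiplicative.toAdd (l x) * lc N l (q.out : C) w := by
          rw [← lc_zpow, ← lc_zpow, hcomm x hxC]
        rw [← mul_assoc, ← mul_assoc, h4]
      rw [hy, mul_zero] at h3
      rcases mul_eq_zero.1 h3 with h4 | h4
      · exact absurd h4 hlw
      · exact h4
    -- the complement
    let H' : Subgroup G :=
      { carrier := {y | ∃ hy : y ∈ N, T ⟨y, hy⟩ = 0}
        mul_mem' := by
          rintro a b ⟨ha, ha'⟩ ⟨hb, hb'⟩
          refine ⟨N.mul_mem ha hb, ?_⟩
          have := hTmul ⟨a, ha⟩ ⟨b, hb⟩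
          rw [ha', hb', add_zero] at this
          exact this
        one_mem' := by
          refine ⟨N.one_mem, ?_⟩
          have := hTmul 1 1
          rw [mul_one] at this
          have h2 : T 1 = 0 := by omega
          exact h2
        inv_mem' := by
          rintro a ⟨ha, ha'⟩
          refine ⟨N.inv_mem ha, ?_⟩
          have := hTz ⟨a, ha⟩ (-1)
          rw [ha', mul_zero, zpow_neg_one] at this
          exact this }
    -- finite index
    let f : N →* Multiplicative (ZMod (T w).natAbs) :=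
      { toFun := fun y => Multiplicative.ofAdd ((T y : ℤ) : ZMod (T w).natAbs)
        map_one' := by
          have := hTmul 1 1
          rw [mul_one] at this
          have h2 : T 1 = 0 := by omega
          rw [h2, Int.cast_zero]; rfl
        map_mul' := fun a b => by rw [hTmul, Int.cast_add]; rfl }
    have hn0 : NeZero (T w).natAbs := ⟨Int.natAbs_ne_zero.2 hTw⟩
    have hfin : Finite (Multiplicative (ZMod (T w).natAbs)) :=
      inferInstanceAs (Finite (ZMod (T w).natAbs))
    have hker : f.ker.FiniteIndex := inferInstance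
    have hM : (f.ker.map N.subtype).FiniteIndex := by
      constructor
      rw [Subgroup.index_map_subtype]
      exact mul_ne_zero hker.index_ne_zero hNf.index_ne_zero
    refine retr C H' ?_ ?_ (f.ker.map N.subtype) hM ?_
    · rintro c hc h ⟨hh, hh'⟩
      exact ⟨_, hTconj ⟨c, hc⟩ ⟨h, hh⟩ hh'⟩
    · rintro x ⟨hxN, hx⟩ hxC
      by_contra hx1
      have h1 := hcomm ⟨x, hxN⟩ hxC
      have h2 := congrArg T h1
      rw [hTz, hTz, hx, mul_zero] at h2
      rcases mul_eq_zero.1 h2.symm with h3 | h3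
      · apply hx1
        exact congrArg Subtype.val (hl ⟨x, hxN⟩ hxC (Multiplicative.toAdd.injective h3))
      · exact hTw h3
    · rintro _ ⟨y, hy, rfl⟩
      have hy' : ((T y : ℤ) : ZMod (T w).natAbs) = 0 := Multiplicative.ofAdd.injective hy
      rw [ZMod.intCast_zmod_eq_zero_iff_dvd, Int.natCast_natAbs, abs_dvd] at hy'
      obtain ⟨k, hk⟩ := hy'
      refine ⟨(y : G) * (w : G) ^ (-k), ⟨N.mul_mem y.2 (N.zpow_mem w.2 _), ?_⟩, (w : G) ^ k,
        C.zpow_mem hwC _, ?_⟩
      · have h1 : (⟨(y : G) * (w : G) ^ (-k), N.mul_mem y.2 (N.zpow_mem w.2 _)⟩ : N) =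
            y * w ^ (-k) := Subtype.ext (by simp)
        rw [h1, hTmul, hTz, hk]
        ring
      · rw [mul_assoc, ← zpow_add]
        simp

end Q32.RA
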