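import Mathlib
import Pool.Agent.Q32.RA.Stm
set_option autoImplicit false

namespace Q32.RA

universe u v

/-- a good representation of one factor -/
theorem factor (ind : S_IND.{u}) (epv : S_EPV.{u}) (H G : Type u) [Group H] [Group G] (i : H →* G)
    (hi : Function.Injective i) (hvc : VirtCyclic H) (hr : IsVirtRetract i.range) :
    ∃ (E : Type u) (_ : Group E) (θ : G →* E), Group.FG E ∧ Q31VA.VirtuallyAbelian E ∧
      Function.Injective (θ.comp i) := by
  obtain ⟨K, hK, hle, ρ, hρ⟩ := hr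
  let e : H ≃* i.range := MonoidHom.ofInjective hi
  obtain ⟨Ψ, -, hΨ⟩ := ind G H K (e.symm.toMonoidHom.comp ρ)
  have : Finite (G ⧸ K) := inferInstance
  obtain ⟨h1, h2⟩ := epv (G ⧸ K) H hvc
  refine ⟨EP (G ⧸ K) H, inferInstance, Ψ, h1, h2, ?_⟩
  have key : ∀ h : H, (Ψ (i h)).1 (((1 : G) : G ⧸ K), 1) = (((1 : G) : G ⧸ K), h) := by
    intro h
    have hk : i h ∈ K := hle ⟨h, rfl⟩
    have h3 := hΨ ⟨i h, hk⟩ 1
    rw [h3]
    congr 1
    rw [mul_one]
    show e.symm (ρ ⟨i h, hk⟩) = h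
    rw [MulEquiv.symm_apply_eq]
    exact hρ (e h)
  intro x y hxy
  have h3 : Ψ (i x) = Ψ (i y) := hxy
  have h4 := key x
  rw [h3, key y] at h4
  exact (congrArg Prod.snd h4).symm

theorem vrg : S_VRG.{u} := by
  intro ind epv vr H G₁ G₂ G _ _ _ _ i₁ i₂ j₁ j₂ hA hvc hi₁ hi₂ hr₁ hr₂
  obtain ⟨E₁, hE₁, θ₁, fg₁, va₁, inj₁⟩ := factor ind epv H G₁ i₁ hi₁ hvc hr₁
  obtain ⟨E₂, hE₂, θ₂, fg₂, va₂, inj₂⟩ := factor ind epv H G₂ i₂ hi₂ hvc hr₂
  -- use Q31VA.mainAll and pass to the generated subgroup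
  obtain ⟨E, hE, ν₁, ν₂, va, hcomp, hn₁, hn₂, -⟩ := Q31VA.mainAll (θ₁.comp i₁) (θ₂.comp i₂)
    inj₁ inj₂ hvc fg₁ fg₂ va₁ va₂
  let W : Subgroup E := ν₁.range ⊔ ν₂.range
  have hWfg : Group.FG W := by
    rw [Group.fg_iff_subgroup_fg]
    have f1 : ν₁.range.FG := by
      rw [← Group.fg_iff_subgroup_fg]
      exact Group.fg_of_surjective ν₁.rangeRestrict_surjective
    have f2 : ν₂.range.FG := by
      rw [← Group.fg_iff_subgroup_fg]
      exact Group.fg_of_surjective ν₂.rangeRestrict_surjective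
    exact f1.sup f2
  have hWva : Q31VA.VirtuallyAbelian W := Q31VA.va_of_injective W.subtype Subtype.val_injective va
  obtain ⟨η, hη1, hη2⟩ := hA.lift E (ν₁.comp θ₁) (ν₂.comp θ₂) (fun h => hcomp h)
  have hηW : ∀ g, η g ∈ W := by
    have hS : W.comap η = ⊤ := by
      apply hA.gen
      · intro g
        show η (j₁ g) ∈ W
        rw [hη1]
        exact Subgroup.mem_sup_left ⟨θ₁ g, rfl⟩
      · intro g
        show η (j₂ g) ∈ W
        rw [hη2]
        exact Subgroup.mem_sup_right ⟨θ₂ g, rfl⟩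
    intro g
    have : g ∈ W.comap η := by rw [hS]; trivial
    exact this
  let η' : G →* W := η.codRestrict W hηW
  let ι : H →* W := η'.comp (j₁.comp i₁)
  have hι : Function.Injective ι := by
    intro x y hxy
    have h1 : η (j₁ (i₁ x)) = η (j₁ (i₁ y)) := congrArg Subtype.val hxy
    rw [hη1, hη1] at h1
    exact inj₁ (hn₁ h1)
  let e : H ≃* ι.range := MonoidHom.ofInjective hι
  have hvcC : VirtCyclic ι.range := by
    exact Q31VA.vc_of_injective e.symm.toMonoidHom e.symm.injective hvc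
  obtain ⟨K', hK', hle, ρ', hρ'⟩ := vr W hWfg hWva ι.range hvcC
  have hK : (K'.comap η').FiniteIndex := Q31VA.fi_comap η' K'
  refine ⟨K'.comap η', hK, e.symm.toMonoidHom.comp (ρ'.comp (η'.subgroupComap K')), ?_⟩
  intro h
  have hk : j₁ (i₁ h) ∈ K'.comap η' := hle ⟨h, rfl⟩
  refine ⟨hk, ?_⟩
  show e.symm (ρ' ⟨η' (j₁ (i₁ h)), hk⟩) = h
  rw [MulEquiv.symm_apply_eq]
  exact hρ' (e h)

theorem vr2 : S_VR2.{u} := by
  intro tfa vfp E _ hfg hva C hC
  obtain ⟨N, hN, hNf, hNc, hNd⟩ := tfa E hfg hva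
  by_cases htriv : ∀ x : N, (x : E) ∈ C → x = 1
  · exact vfp E C N hN hNf 1 (fun x hx _ => htriv x hx)
  · push Not at htriv
    obtain ⟨w, hwC, hw1⟩ := htriv
    obtain ⟨l, hl⟩ := hNd w hw1
    refine vfp E C N hN hNf l ?_
    intro x hxC hlx
    by_contra hx1
    obtain ⟨l', hl'⟩ := hNd x hx1
    -- infinite order
    have tf : ∀ (a : Multiplicative ℤ), a ≠ 1 → ∀ n : ℤ, n ≠ 0 → a ^ n ≠ 1 := by
      intro a ha n hn h
      apply ha
      have h1 : n * Multiplicative.toAdd a = 0 := by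
        have := congrArg Multiplicative.toAdd h
        rw [toAdd_zpow, toAdd_one, smul_eq_mul] at this
        exact this
      rcases mul_eq_zero.1 h1 with h2 | h2
      · exact absurd h2 hn
      · exact Multiplicative.toAdd.injective h2
    obtain ⟨D, hD, hcyc⟩ := hC
    obtain ⟨c, hc⟩ := hcyc.exists_generator
    have hDn : D.normalCore.FiniteIndex := inferInstance
    set m : ℕ := D.normalCore.index with hm
    have hm0 : m ≠ 0 := hDn.index_ne_zero
    have hpow : ∀ y : C, ∃ p : ℤ, (y : C) ^ (m : ℤ) = (c : C) ^ p := by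
      intro y
      have h1 : y ^ m ∈ D.normalCore := Subgroup.pow_index_mem _ _
      obtain ⟨p, hp⟩ := Subgroup.mem_zpowers_iff.1 (hc ⟨_, Subgroup.normalCore_le _ h1⟩)
      refine ⟨p, ?_⟩
      have h2 := congrArg Subtype.val hp
      rw [Subgroup.coe_zpow] at h2
      rw [zpow_natCast, h2]
    obtain ⟨p, hp⟩ := hpow ⟨x, hxC⟩
    obtain ⟨q, hq⟩ := hpow ⟨w, hwC⟩
    have hp' : (x : E) ^ (m : ℤ) = ((c : C) : E) ^ p := by
      have := congrArg Subtype.val hp
      simpa using this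
    have hq' : (w : E) ^ (m : ℤ) = ((c : C) : E) ^ q := by
      have := congrArg Subtype.val hq
      simpa using this
    have hmz : (m : ℤ) ≠ 0 := by exact_mod_cast hm0
    have hxw : x ^ ((m : ℤ) * q) = w ^ ((m : ℤ) * p) := by
      apply Subtype.ext
      rw [Subgroup.coe_zpow, Subgroup.coe_zpow, zpow_mul, zpow_mul, hp', hq', ← zpow_mul,
        ← zpow_mul, mul_comm]
    have hq0 : q ≠ 0 := by
      rintro rfl
      rw [zpow_zero] at hq'
      have h2 : w ^ (m : ℤ) = 1 := Subtype.ext (by rw [Subgroup.coe_zpow, hq']; rfl)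
      refine tf _ hl m hmz ?_
      rw [← map_zpow, h2, map_one]
    have hp0 : p ≠ 0 := by
      rintro rfl
      rw [zpow_zero] at hp'
      have h2 : x ^ (m : ℤ) = 1 := Subtype.ext (by rw [Subgroup.coe_zpow, hp']; rfl)
      refine tf _ hl' m hmz ?_
      rw [← map_zpow, h2, map_one]
    have h3 : l (w ^ ((m : ℤ) * p)) = 1 := by
      rw [← hxw, map_zpow, hlx, one_zpow]
    rw [map_zpow] at h3
    exact tf _ hl _ (mul_ne_zero hmz hp0) h3

end Q32.RA
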