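import Mathlib
import Pool.Agent.Q32.RA.Stm
set_option autoImplicit false

namespace Q32.RA

universe u v

theorem pr_succ' {G : Type u} [Group G] (x : ℕ → G) : ∀ n,
    pr x (n + 1) = x 0 * pr (fun k => x (k + 1)) n
  | 0 => by simp [pr]
  | n + 1 => by
    show pr x (n + 1) * x (n + 1) = x 0 * (pr (fun k => x (k + 1)) n * x (n + 1))
    rw [pr_succ' x n, mul_assoc]

/-- put a letter in front -/
def cns {A : Type u} (a : A) (y : ℕ → A) : ℕ → A
  | 0 => a
  | k + 1 => y k

section

variable {H G₁ G₂ G : Type u} [Group H] [Group G₁] [Group G₂] [Group G]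

/-- the word property -/
def TT (i₁ : H →* G₁) (i₂ : H →* G₂) (j₁ : G₁ →* G) (j₂ : G₂ →* G) (g : G) : Prop :=
  (∃ h, g = j₁ (i₁ h)) ∨ ∃ (u : G₁ ⊕ G₂) (y : ℕ → G₁ ⊕ G₂) (n : ℕ), Proper i₁ i₂ u ∧
    Red i₁ i₂ y n ∧ (0 < n → u.isLeft ≠ (y 0).isLeft) ∧ g = vl j₁ j₂ u * pr (fun k => vl j₁ j₂ (y k)) n

theorem red_cns {i₁ : H →* G₁} {i₂ : H →* G₂} {u : G₁ ⊕ G₂} {y : ℕ → G₁ ⊕ G₂} {n : ℕ}
    (hu : Proper i₁ i₂ u) (hy : Red i₁ i₂ y n) (hn : 0 < n → u.isLeft ≠ (y 0).isLeft) :
    Red i₁ i₂ (cns u y) (n + 1) := by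
  refine ⟨?_, ?_⟩
  · rintro (_ | k) hk
    · exact hn (by omega)
    · exact hy.1 k (by omega)
  · rintro (_ | k) hk
    · exact hu
    · exact hy.2 k (by omega)

theorem red_tail {i₁ : H →* G₁} {i₂ : H →* G₂} {y : ℕ → G₁ ⊕ G₂} {n : ℕ}
    (hy : Red i₁ i₂ y (n + 1)) : Red i₁ i₂ (fun k => y (k + 1)) n :=
  ⟨fun k hk => hy.1 (k + 1) (by omega), fun k hk => hy.2 (k + 1) (by omega)⟩

theorem TT_left {i₁ : H →* G₁} {i₂ : H →* G₂} {j₁ : G₁ →* G} {j₂ : G₂ →* G}
    (hA : IsAm i₁ i₂ j₁ j₂) (a : G₁) (g : G) (hg : TT i₁ i₂ j₁ j₂ g) :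
    TT i₁ i₂ j₁ j₂ (j₁ a * g) := by
  rcases hg with ⟨h, rfl⟩ | ⟨u, y, n, hu, hy, hn, rfl⟩
  · rw [← map_mul]
    by_cases hr : a * i₁ h ∈ i₁.range
    · obtain ⟨h', hh'⟩ := hr
      exact Or.inl ⟨h', by rw [hh']⟩
    · refine Or.inr ⟨Sum.inl (a * i₁ h), fun _ => Sum.inl 1, 0, hr, ⟨fun k hk => by omega,
        fun k hk => by omega⟩, fun h0 => by omega, ?_⟩
      show _ = _ * 1
      rw [mul_one]; rfl
  · rcases u with b | b
    · rw [← mul_assoc]
      show TT i₁ i₂ j₁ j₂ (j₁ a * j₁ b * _)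
      rw [← map_mul]
      by_cases hr : a * b ∈ i₁.range
      · obtain ⟨h', hh'⟩ := hr
        rw [← hh']
        rcases n with _ | n
        · exact Or.inl ⟨h', mul_one _⟩
        · have h1 := hn (by omega)
          rcases hy0 : y 0 with c | c
          · rw [hy0] at h1
            simp at h1
          · right
            have hc := hy.2 0 (by omega)
            rw [hy0] at hc
            refine ⟨Sum.inr (i₂ h' * c), fun k => y (k + 1), n, ?_, red_tail hy, ?_, ?_⟩
            · intro hmem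
              apply hc
              have := i₂.range.mul_mem (i₂.range.inv_mem ⟨h', rfl⟩) hmem
              simpa using this
            · intro hn0
              have h2 := hy.1 0 (by omega)
              rw [hy0] at h2
              simpa using h2
            · rw [pr_succ', hy0, hA.comm]
              show j₂ (i₂ h') * (j₂ c * _) = j₂ (i₂ h' * c) * _
              rw [map_mul, mul_assoc]
      · right
        refine ⟨Sum.inl (a * b), y, n, hr, hy, ?_, rfl⟩
        intro hn0
        simpa using hn hn0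
    · by_cases hr : a ∈ i₁.range
      · obtain ⟨h', rfl⟩ := hr
        right
        refine ⟨Sum.inr (i₂ h' * b), y, n, ?_, hy, ?_, ?_⟩
        · intro hmem
          apply hu
          have := i₂.range.mul_mem (i₂.range.inv_mem ⟨h', rfl⟩) hmem
          simpa using this
        · intro hn0
          simpa using hn hn0
        · rw [hA.comm]
          show j₂ (i₂ h') * (j₂ b * _) = j₂ (i₂ h' * b) * _
          rw [map_mul, mul_assoc]
      · right
        refine ⟨Sum.inl a, cns (Sum.inr b) y, n + 1, hr, red_cns hu hy hn, fun _ => by simp [cns], ?_⟩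
        rw [pr_succ']
        rfl

theorem TT_right {i₁ : H →* G₁} {i₂ : H →* G₂} {j₁ : G₁ →* G} {j₂ : G₂ →* G}
    (hA : IsAm i₁ i₂ j₁ j₂) (a : G₂) (g : G) (hg : TT i₁ i₂ j₁ j₂ g) :
    TT i₁ i₂ j₁ j₂ (j₂ a * g) := by
  rcases hg with ⟨h, rfl⟩ | ⟨u, y, n, hu, hy, hn, rfl⟩
  · rw [hA.comm, ← map_mul]
    by_cases hr : a * i₂ h ∈ i₂.range
    · obtain ⟨h', hh'⟩ := hr
      exact Or.inl ⟨h', by rw [hA.comm, hh']⟩
    · refine Or.inr ⟨Sum.inr (a * i₂ h), fun _ => Sum.inl 1, 0, hr, ⟨fun k hk => by omega,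
        fun k hk => by omega⟩, fun h0 => by omega, ?_⟩
      show _ = _ * 1
      rw [mul_one]; rfl
  · rcases u with b | b
    · by_cases hr : a ∈ i₂.range
      · obtain ⟨h', rfl⟩ := hr
        right
        refine ⟨Sum.inl (i₁ h' * b), y, n, ?_, hy, ?_, ?_⟩
        · intro hmem
          apply hu
          have := i₁.range.mul_mem (i₁.range.inv_mem ⟨h', rfl⟩) hmem
          simpa using this
        · intro hn0
          simpa using hn hn0
        · rw [← hA.comm]
          show j₁ (i₁ h') * (j₁ b * _) = j₁ (i₁ h' * b) * _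
          rw [map_mul, mul_assoc]
      · right
        refine ⟨Sum.inr a, cns (Sum.inl b) y, n + 1, hr, red_cns hu hy hn, fun _ => by simp [cns], ?_⟩
        rw [pr_succ']
        rfl
    · rw [← mul_assoc]
      show TT i₁ i₂ j₁ j₂ (j₂ a * j₂ b * _)
      rw [← map_mul]
      by_cases hr : a * b ∈ i₂.range
      · obtain ⟨h', hh'⟩ := hr
        rw [← hh']
        rcases n with _ | n
        · exact Or.inl ⟨h', (mul_one _).trans (hA.comm _).symm⟩
        · have h1 := hn (by omega)
          rcases hy0 : y 0 with c | c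
          · right
            have hc := hy.2 0 (by omega)
            rw [hy0] at hc
            refine ⟨Sum.inl (i₁ h' * c), fun k => y (k + 1), n, ?_, red_tail hy, ?_, ?_⟩
            · intro hmem
              apply hc
              have := i₁.range.mul_mem (i₁.range.inv_mem ⟨h', rfl⟩) hmem
              simpa using this
            · intro hn0
              have h2 := hy.1 0 (by omega)
              rw [hy0] at h2
              simpa using h2
            · rw [pr_succ', hy0, ← hA.comm]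
              show j₁ (i₁ h') * (j₁ c * _) = j₁ (i₁ h' * c) * _
              rw [map_mul, mul_assoc]
          · rw [hy0] at h1
            simp at h1
      · right
        refine ⟨Sum.inr (a * b), y, n, hr, hy, ?_, rfl⟩
        intro hn0
        simpa using hn hn0

end

theorem word : S_WORD.{u} := by
  intro H G₁ G₂ G _ _ _ _ i₁ i₂ j₁ j₂ hA g
  let S : Subgroup G :=
    { carrier := {s | ∀ g, (TT i₁ i₂ j₁ j₂ g → TT i₁ i₂ j₁ j₂ (s * g)) ∧
        (TT i₁ i₂ j₁ j₂ g → TT i₁ i₂ j₁ j₂ (s⁻¹ * g))}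
      mul_mem' := by
        intro a b ha hb g
        refine ⟨fun h => ?_, fun h => ?_⟩
        · rw [mul_assoc]
          exact (ha _).1 ((hb _).1 h)
        · rw [mul_inv_rev, mul_assoc]
          exact (hb _).2 ((ha _).2 h)
      one_mem' := by
        intro g
        simp
      inv_mem' := by
        intro a ha g
        rw [inv_inv]
        exact ⟨(ha g).2, (ha g).1⟩ }
  have hS : S = ⊤ := by
    apply hA.gen
    · intro a g
      exact ⟨TT_left hA a g, by rw [← map_inv]; exact TT_left hA _ g⟩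
    · intro a g
      exact ⟨TT_right hA a g, by rw [← map_inv]; exact TT_right hA _ g⟩
  have hg : g ∈ S := by rw [hS]; trivial
  have h1 : TT i₁ i₂ j₁ j₂ (g * 1) := (hg 1).1 (Or.inl ⟨1, by rw [map_one, map_one]⟩)
  rw [mul_one] at h1
  rcases h1 with ⟨h, rfl⟩ | ⟨u, y, n, hu, hy, hn, rfl⟩
  · exact Or.inl ⟨h, rfl⟩
  · right
    refine ⟨cns u y, n + 1, by omega, red_cns hu hy hn, ?_⟩
    rw [pr_succ']
    rfl

end Q32.RA
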