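import Mathlib
import Pool.Agent.Q32.RA.Fin0
import Pool.Agent.Q32.RA.Ind
import Pool.Agent.Q32.RA.Ray1
import Pool.Agent.Q32.RA.Ray2
import Pool.Agent.Q32.RA.Mag1
import Pool.Agent.Q32.RA.Mag2
import Pool.Agent.Q32.RA.Sep
import Pool.Agent.Q32.RA.Word
import Pool.Agent.Q32.RA.Vrg
import Pool.Agent.Q32.RA.Vfp
import Pool.Agent.Q32.RA.Tfa
import Pool.Agent.Q149.RA.Com
import Pool.Agent.Q149.RA.Fep
set_option autoImplicit false

/-! # Project RA: the final theorem -/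

namespace Q32.RA

universe u

theorem lib : AmLib.{u} :=
  amLib Q149.RA.inj Q149.RA.inj sur Q149.RA.ext Q149.RA.ext Q149.RA.dir Q149.RA.int fin Q149.RA.com
    Q149.RA.pi Q149.RA.fep Q149.RA.vc

theorem main (H G₁ G₂ G : Type u) [Group H] [Group G₁] [Group G₂] [Group G] (i₁ : H →* G₁)
    (i₂ : H →* G₂) (j₁ : G₁ →* G) (j₂ : G₂ →* G) (hA : IsAm i₁ i₂ j₁ j₂) (hvc : VirtCyclic H)
    (h₁ : Function.Injective i₁) (h₂ : Function.Injective i₂) (r₁ : IsVirtRetract i₁.range)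
    (r₂ : IsVirtRetract i₂.range) (a₁ : ResAmen G₁) (a₂ : ResAmen G₂) : ResAmen G :=
  res lib ind Q149.RA.epv tfa vfp vr2 vrg ray1 ray2 ray sep mag1 mag2 comb mag word
    H G₁ G₂ G i₁ i₂ j₁ j₂ hA hvc h₁ h₂ r₁ r₂ a₁ a₂

theorem final {G : Fin 2 → Type u} {G₀ : Type u} [∀ i, Group (G i)] [Group G₀]
    (φ : ∀ i, G₀ →* G i) (hφ : ∀ i, Function.Injective (φ i)) (h₀ : VirtCyclic G₀)
    (hR : ∀ i, IsVirtRetract (φ i).range) (hA : ∀ i, ResAmen (G i)) :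
    ResAmen (Monoid.PushoutI φ) :=
  main G₀ (G 0) (G 1) (Monoid.PushoutI φ) (φ 0) (φ 1) _ _ (po G G₀ φ) h₀ (hφ 0) (hφ 1) (hR 0) (hR 1)
    (hA 0) (hA 1)

end Q32.RA
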